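import Mathlib
import Pool.Agent.Y840.PT.Alm

set_option autoImplicit false
set_option maxHeartbeats 4000000

/-!
# Sifted sets in short intervals: lower bound and narrow progressions in dense subsets

Uniformly in the sifted classes.  The two inputs are the fundamental lemma of the sieve and Szemerédi's theorem
relative to sifted sets (`Pool.Agent.Y843.HS.fin`).
-/

namespace Pool.Agent.X58.IV

open Finset Filter Topology
open Pool.Agent.Y843.HS (Pr VV Sv S_FIN)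
open Pool.Agent.Y840.PT (P0 prod_low floor_pow pow_le_quad one_sub_sum_le sum_inv_sq)

/-- at most `l` classes, and not all of them, modulo every prime -/
def Adm (l : ℕ) (Z : ℕ → Finset ℕ) : Prop :=
  ∀ p : ℕ, p.Prime → (Z p).card ≤ l ∧ (Z p).card < p ∧ ∀ c ∈ Z p, c < p

open Classical in
/-- the integers of `(A, A + X]` outside the classes of `Z p` for all primes `p ≤ X ^ κ` -/
noncomputable def Sift (Z : ℕ → Finset ℕ) (κ : ℝ) (A X : ℕ) : Finset ℕ :=
  (Ioc A (A + X)).filter (fun n => ∀ p : ℕ, p.Prime → (p : ℝ) ≤ (X : ℝ) ^ κ → n % p ∉ Z p)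

/-- a class which avoids all small primes -/
lemma good_class {l : ℕ} {Z : ℕ → Finset ℕ} (hZ : Adm l Z) (s : ℕ) :
    ∃ a : ℕ, ∀ p ∈ P0 s, a % p ∉ Z p := by
  classical
  have hex : ∀ p ∈ P0 s, ∃ n : ℕ, n < p ∧ n ∉ Z p := by
    intro p hp
    have hpp := (mem_filter.1 hp).2
    by_contra hcon
    push Not at hcon
    have h1 : range p ⊆ Z p := fun n hn => hcon n (mem_range.1 hn)
    have h2 := card_le_card h1
    rw [card_range] at h2
    have := (hZ p hpp).2.1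
    omega
  choose! c hc using hex
  obtain ⟨a, ha⟩ := Nat.chineseRemainderOfFinset c id (P0 s)
    (fun p hp => (mem_filter.1 hp).2.ne_zero) (fun p hp q hq hpq =>
      (Nat.coprime_primes (mem_filter.1 hp).2 (mem_filter.1 hq).2).2 hpq)
  refine ⟨a, fun p hp hd => ?_⟩
  have h1 : a ≡ c p [MOD p] := ha p hp
  have h2 : a % p = c p := by
    rw [show a % p = c p % p from h1, Nat.mod_eq_of_lt (hc p hp).1]
  rw [h2] at hd
  exact (hc p hp).2 hd

/-- **The lower bound sieve, uniformly in the classes** -/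
theorem lowZ (l : ℕ) : ∃ κ c : ℝ, 0 < κ ∧ κ ≤ 1 ∧ 0 < c ∧ ∃ X₀ : ℕ, ∀ X A : ℕ, X₀ ≤ X →
    ∀ Z : ℕ → Finset ℕ, Adm l Z →
    c * X * VV Z 0 ⌊(X : ℝ) ^ κ⌋₊ ≤ ((Sift Z κ A X).card : ℝ) := by
  classical
  obtain ⟨C, hC1, hfl⟩ := Pool.Agent.Y151.HS.flc
  set b : ℕ := 4 * (C * (l + 1)) with hb
  have hb1 : 1 ≤ b := by
    have : 1 ≤ C * (l + 1) := Nat.mul_pos hC1 (by omega)
    omega
  set s : ℕ := C * (l + 1) with hs
  set E : ℕ := C * b with hE
  have hE1 : 1 ≤ E := Nat.mul_pos hC1 hb1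
  obtain ⟨c₁, hc₁, R₀, hden⟩ := Pool.Agent.Y79.HS.den l 3
  set D : ℕ := ∏ p ∈ P0 s, p with hD
  have hD1 : 1 ≤ D := Nat.pos_of_ne_zero (prod_ne_zero_iff.2 fun p hp => (mem_filter.1 hp).2.ne_zero)
  have hD0 : (0 : ℝ) < D := by exact_mod_cast hD1
  set κ : ℝ := 1 / (8 * E) with hκ
  have hE0 : (0 : ℝ) < E := by exact_mod_cast hE1
  have hκ0 : 0 < κ := by positivity
  have tN : Tendsto (fun N : ℕ => (N : ℝ)) atTop atTop := tendsto_natCast_atTop_atTop
  have t1 : Tendsto (fun N : ℕ => (N : ℝ) ^ (1 / 4 : ℝ)) atTop atTop :=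
    (tendsto_rpow_atTop (by norm_num)).comp tN
  obtain ⟨X₂, hX₂⟩ := eventually_atTop.1 ((floor_pow hκ0 (max R₀ (max (s + 1) 4))).and
    (t1.eventually_ge_atTop (4 * (D : ℝ))))
  have hκ1 : κ ≤ 1 := by
    rw [hκ, div_le_one (by positivity)]
    have : (1 : ℝ) ≤ E := by exact_mod_cast hE1
    linarith
  refine ⟨κ, c₁ / (4 * D), hκ0, hκ1, by positivity, max X₂ 3, fun X A hX Z hZ => ?_⟩
  obtain ⟨⟨h1, h2, h3⟩, h4⟩ := hX₂ X ((le_max_left _ _).trans hX)
  have hX3 : 3 ≤ X := (le_max_right _ _).trans hX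
  have hX0 : (0 : ℝ) < X := by exact_mod_cast (by omega : 0 < X)
  have hX1 : (1 : ℝ) ≤ X := by exact_mod_cast (by omega : 1 ≤ X)
  set R : ℕ := ⌊(X : ℝ) ^ κ⌋₊ with hR
  have hRR₀ : R₀ ≤ R := (le_max_left _ _).trans h1
  have hRs : s + 1 ≤ R := ((le_max_left _ _).trans (le_max_right _ _)).trans h1
  have hR4 : 4 ≤ R := ((le_max_right _ _).trans (le_max_right _ _)).trans h1
  have hRle : (R : ℝ) ≤ (X : ℝ) ^ κ := Nat.floor_le (by positivity)
  -- the double power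
  set J : ℕ := Nat.log 2 (Nat.log 2 R) + 1 with hJ
  have hRz : R < 2 ^ 2 ^ J := Pool.Agent.Y959.Sv.JJ_lt R
  have hzR : 2 ^ 2 ^ J ≤ R ^ 2 := Pool.Agent.Y959.Sv.JJ_le R (by omega)
  set z : ℕ := 2 ^ 2 ^ J with hz
  obtain ⟨a, ha⟩ := good_class hZ s
  have hmemPr : ∀ p, p ∈ Pr s z ↔ (s < p ∧ p ≤ z) ∧ p.Prime := by
    intro p; rw [Pr, mem_filter, mem_Ioc]
  have key := hfl l b s J (by omega) le_rfl Z (by
      intro p hp
      rw [hmemPr] at hp
      exact ⟨(hZ p hp.2).1, (hZ p hp.2).2.2⟩) D a A X hD1 (by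
      intro p hp hd
      rw [hmemPr] at hp
      obtain ⟨q, hq, hpq⟩ := (Prime.dvd_finsetProd_iff hp.2.prime _).1 hd
      have := (Nat.prime_dvd_prime_iff_eq hp.2 (mem_filter.1 hq).2).1 hpq
      have h5 := (mem_Ioc.1 (mem_filter.1 hq).1).2
      omega)
  set V := ∏ p ∈ Pr s z, (1 - ((Z p).card : ℝ) / p) with hV
  -- size of the error term
  have hzX : (z : ℝ) ^ E ≤ (X : ℝ) ^ (1 / 4 : ℝ) := by
    have h5 : (z : ℝ) ≤ ((X : ℝ) ^ κ) ^ 2 := by
      calc (z : ℝ) ≤ (R : ℝ) ^ 2 := by exact_mod_cast hzR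
        _ ≤ _ := pow_le_pow_left₀ (Nat.cast_nonneg _) hRle 2
    calc (z : ℝ) ^ E ≤ (((X : ℝ) ^ κ) ^ 2) ^ E := pow_le_pow_left₀ (Nat.cast_nonneg _) h5 E
      _ = (X : ℝ) ^ (1 / 4 : ℝ) := by
          rw [← pow_mul, ← Real.rpow_natCast, ← Real.rpow_mul hX0.le]
          congr 1
          rw [hκ]
          push_cast
          field_simp
          norm_num
  have hVlow : 1 / (z : ℝ) ^ l ≤ V := by
    apply prod_low l (Pr s z) z _ _ (fun p => ((Z p).card : ℝ))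
    · intro p hp
      rw [hmemPr] at hp
      exact_mod_cast (hZ p hp.2).1
    · have : l + 1 ≤ s := Nat.le_mul_of_pos_left _ hC1
      omega
    · intro p hp
      rw [hmemPr] at hp
      have : l + 1 ≤ s := Nat.le_mul_of_pos_left _ hC1
      exact ⟨by omega, hp.1.2⟩
  have hz1 : (1 : ℝ) ≤ z := by exact_mod_cast (by omega : 1 ≤ z)
  have hzl : (z : ℝ) ^ l ≤ (X : ℝ) ^ (1 / 4 : ℝ) := by
    refine le_trans (pow_le_pow_right₀ hz1 ?_) hzX
    have : l + 1 ≤ C * (l + 1) := Nat.le_mul_of_pos_left _ hC1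
    calc l ≤ b := by omega
      _ ≤ E := Nat.le_mul_of_pos_left _ hC1
  have hV0 : 0 < V := lt_of_lt_of_le (by positivity) hVlow
  set Y : ℝ := (X : ℝ) ^ (1 / 4 : ℝ) with hY
  have hY0 : 0 < Y := by positivity
  have hYX : (X : ℝ) = Y * Y * Y * Y := by
    rw [hY, ← Real.rpow_add hX0, ← Real.rpow_add hX0, ← Real.rpow_add hX0]
    norm_num
  have hY1 : 1 ≤ Y := Real.one_le_rpow hX1 (by norm_num)
  have herr : (z : ℝ) ^ (C * b) ≤ (1 / 4) * ((X : ℝ) / D * V) := by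
    have h5 : 1 / Y ≤ V := by
      refine le_trans ?_ hVlow
      exact one_div_le_one_div_of_le (by positivity) hzl
    calc (z : ℝ) ^ (C * b) ≤ Y := hzX
      _ ≤ (1 / 4) * ((X : ℝ) / D * (1 / Y)) := by
          have e : (1 / 4) * ((X : ℝ) / D * (1 / Y)) = Y * Y * Y / (4 * D) := by
            rw [hYX]; field_simp
          rw [e, le_div_iff₀ (by positivity)]
          nlinarith [mul_pos hY0 hY0]
      _ ≤ _ := by gcongr
  have hhalf : (1 / 2 : ℝ) ^ b ≤ 1 / 2 := by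
    calc (1 / 2 : ℝ) ^ b ≤ (1 / 2 : ℝ) ^ 1 := pow_le_pow_of_le_one (by norm_num) (by norm_num) hb1
      _ = 1 / 2 := pow_one _
  have hXDV : 0 < (X : ℝ) / D * V := by positivity
  have hcount : (1 / 4) * ((X : ℝ) / D * V) ≤
      (((Ioc A (A + X)).filter (fun x => x % D = a % D ∧ ∀ p ∈ Pr s z, x % p ∉ Z p)).card : ℝ) := by
    have h5 := (abs_le.1 key).1
    have h6 : (1 / 2 : ℝ) ^ b * ((X : ℝ) / D * V) ≤ 1 / 2 * ((X : ℝ) / D * V) :=
      mul_le_mul_of_nonneg_right hhalf hXDV.le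
    have h7 : ((2 : ℝ) ^ 2 ^ J) ^ (C * b) = (z : ℝ) ^ (C * b) := by
      rw [hz]; push_cast; rfl
    rw [h7] at h5
    have h8 : (((Ioc A (A + X)).filter (fun x => x % D = a % D ∧
        ∀ p ∈ Pr s z, x % p ∉ Z p)).card : ℝ) = (((Ioc A (A + X)).filter (fun x => x % D = a % D ∧
        ∀ p ∈ Pr s (2 ^ 2 ^ J), x % p ∉ Z p)).card : ℝ) := by
      congr!
    rw [h8]
    linarith
  have hsub : ((Ioc A (A + X)).filter (fun x => x % D = a % D ∧ ∀ p ∈ Pr s z, x % p ∉ Z p)) ⊆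
      Sift Z κ A X := by
    intro n hn
    rw [mem_filter] at hn
    rw [Sift, mem_filter]
    obtain ⟨hn1, hn2, hn3⟩ := hn
    refine ⟨hn1, fun p hp hpX hd => ?_⟩
    have hpR : p ≤ R := Nat.le_floor hpX
    by_cases hps : p ≤ s
    · have hp0 : p ∈ P0 s := by
        rw [P0, mem_filter, mem_Ioc]; exact ⟨⟨hp.pos, hps⟩, hp⟩
      apply ha p hp0
      have h5 : n ≡ a [MOD D] := hn2
      have h6 : n ≡ a [MOD p] := h5.of_dvd (dvd_prod_of_mem _ hp0)
      rw [← show n % p = a % p from h6]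
      exact hd
    · exact hn3 p ((hmemPr p).2 ⟨⟨by omega, by omega⟩, hp⟩) hd
  -- the product
  have hVV : c₁ * VV Z 0 R ≤ V := by
    have h5 : c₁ ≤ VV Z R z := by
      apply hden R z hRR₀ _ Z
      · intro p hp
        rw [Pr, mem_filter, mem_Ioc] at hp
        exact ⟨(hZ p hp.2).1, (hZ p hp.2).2.2⟩
      · calc z ≤ R ^ 2 := hzR
          _ ≤ R ^ 3 := Nat.pow_le_pow_right (by omega) (by norm_num)
    have hfac : ∀ p : ℕ, p.Prime → 0 ≤ 1 - ((Z p).card : ℝ) / p ∧ 1 - ((Z p).card : ℝ) / p ≤ 1 := by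
      intro p hp
      have hp0 : (0 : ℝ) < p := by exact_mod_cast hp.pos
      have h6 : ((Z p).card : ℝ) ≤ p := by exact_mod_cast (hZ p hp).2.1.le
      have h7 : 0 ≤ ((Z p).card : ℝ) / p := div_nonneg (Nat.cast_nonneg _) hp0.le
      have h8 : ((Z p).card : ℝ) / p ≤ 1 := by rwa [div_le_one hp0]
      exact ⟨by linarith, by linarith⟩
    have h6 : V = (∏ p ∈ Pr s R, (1 - ((Z p).card : ℝ) / p)) * VV Z R z := by
      rw [hV, VV, ← prod_union]
      · congr 1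
        ext p
        rw [mem_union, hmemPr, Pr, Pr, mem_filter, mem_filter, mem_Ioc, mem_Ioc]
        constructor
        · rintro ⟨h, hp⟩
          by_cases h9 : p ≤ R
          · exact Or.inl ⟨⟨h.1, h9⟩, hp⟩
          · exact Or.inr ⟨⟨by omega, h.2⟩, hp⟩
        · rintro (⟨h, hp⟩ | ⟨h, hp⟩)
          · exact ⟨⟨h.1, by omega⟩, hp⟩
          · exact ⟨⟨by omega, h.2⟩, hp⟩
      · rw [disjoint_left]
        intro p hp hp'
        rw [Pr, mem_filter, mem_Ioc] at hp hp'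
        omega
    have h7 : VV Z 0 R ≤ ∏ p ∈ Pr s R, (1 - ((Z p).card : ℝ) / p) := by
      unfold VV
      have hsub2 : Pr s R ⊆ Pr 0 R := by
        intro p hp
        rw [Pr, mem_filter, mem_Ioc] at hp ⊢
        exact ⟨⟨by omega, hp.1.2⟩, hp.2⟩
      rw [← prod_sdiff hsub2]
      have h8 : ∏ p ∈ Pr 0 R \ Pr s R, (1 - ((Z p).card : ℝ) / p) ≤ 1 := by
        apply prod_le_one
        · intro p hp
          exact (hfac p (mem_filter.1 (Finset.mem_sdiff.1 hp).1).2).1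
        · intro p hp
          exact (hfac p (mem_filter.1 (Finset.mem_sdiff.1 hp).1).2).2
      have h9 : 0 ≤ ∏ p ∈ Pr s R, (1 - ((Z p).card : ℝ) / p) := by
        apply prod_nonneg
        intro p hp
        exact (hfac p (mem_filter.1 hp).2).1
      nlinarith
    have h8 : 0 ≤ VV Z 0 R := by
      unfold VV
      apply prod_nonneg
      intro p hp
      exact (hfac p (mem_filter.1 hp).2).1
    rw [h6]
    calc c₁ * VV Z 0 R = VV Z 0 R * c₁ := mul_comm _ _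
      _ ≤ (∏ p ∈ Pr s R, (1 - ((Z p).card : ℝ) / p)) * VV Z R z :=
          mul_le_mul h7 h5 hc₁.le (h8.trans h7)
  calc c₁ / (4 * D) * X * VV Z 0 R = (1 / 4) * ((X : ℝ) / D * (c₁ * VV Z 0 R)) := by
        field_simp
    _ ≤ (1 / 4) * ((X : ℝ) / D * V) := by gcongr
    _ ≤ _ := hcount
    _ ≤ _ := by exact_mod_cast card_le_card hsub

end Pool.Agent.X58.IV
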