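import Mathlib
import Pool.Agent.X58.IV.Base

set_option autoImplicit false
set_option maxHeartbeats 4000000

/-!
# The sieve product, and the general statement for linear forms
-/

namespace Pool.Agent.X58.IV

open Finset Filter Topology
open Pool.Agent.Y843.HS (Pr VV Sv S_FIN)
open Pool.Agent.Y840.PT (P0 prod_low floor_pow pow_le_quad one_sub_sum_le sum_inv_sq)

/-- Mertens, lower bound -/
lemma mert_low : ∃ c : ℝ, 0 < c ∧ ∀ y : ℕ, 2 ≤ y → c / Real.log y ≤ ∏ p ∈ P0 y, (1 - 1 / (p : ℝ)) := by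
  have h := Pool.Agent.H305R2.mertens_three
  obtain ⟨C2, hC2⟩ := h.bddAbove_range
  refine ⟨1 / max C2 1, by positivity, fun y hy => ?_⟩
  have hlog : 0 < Real.log y := Real.log_pos (by exact_mod_cast (by omega : 1 < y))
  have h2 := hC2 ⟨y, rfl⟩
  have e : ∏ p ∈ (Finset.Icc 1 y).filter Nat.Prime, (1 - (p : ℝ)⁻¹)⁻¹ =
      (∏ p ∈ P0 y, (1 - 1 / (p : ℝ)))⁻¹ := by
    rw [← Finset.prod_inv_distrib]
    unfold P0
    have : Finset.Icc 1 y = Ioc 0 y := by
      ext n; rw [mem_Icc, mem_Ioc]; omega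
    rw [this]
    simp only [one_div]
  simp only [e] at h2
  have hP : 0 < ∏ p ∈ P0 y, (1 - 1 / (p : ℝ)) := by
    apply prod_pos
    intro p hp
    have hp2 := (mem_filter.1 hp).2.two_le
    have hp2' : (2 : ℝ) ≤ p := by exact_mod_cast hp2
    rw [sub_pos, div_lt_one (by linarith)]
    linarith
  have h3 := h2.trans (le_max_left C2 1)
  have hM : (0 : ℝ) < max C2 1 := lt_max_of_lt_right one_pos
  rw [div_le_iff₀ hlog, inv_le_iff_one_le_mul₀ hP] at h3
  rw [div_div, div_le_iff₀ (by positivity)]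
  linarith

/-- **The sieve product is at least `c / (log y) ^ l`.** -/
theorem VV_ge (l : ℕ) : ∃ c : ℝ, 0 < c ∧ ∀ Z : ℕ → Finset ℕ, Adm l Z → ∀ y : ℕ, 2 ≤ y →
    c / Real.log y ^ l ≤ VV Z 0 y := by
  classical
  obtain ⟨c0, hc0, hm⟩ := mert_low
  obtain ⟨y0, hy0⟩ : ∃ y0 : ℕ, y0 = 4 * l ^ 2 + 2 * l + 1 := ⟨_, rfl⟩
  have hprod0 : 0 < ∏ p ∈ P0 y0, (1 / (p : ℝ)) := by
    apply prod_pos
    intro p hp
    have := (mem_filter.1 hp).2.pos
    positivity
  refine ⟨c0 ^ l * ((1 / 2) * ∏ p ∈ P0 y0, (1 / (p : ℝ))), by positivity, fun Z hZ y hy => ?_⟩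
  have hlog : 0 < Real.log y := Real.log_pos (by exact_mod_cast (by omega : 1 < y))
  set f : ℕ → ℝ := fun p => if p ≤ y0 then 1 / (p : ℝ) else 1 - 2 * (l : ℝ) ^ 2 / (p : ℝ) ^ 2 with hf
  have hl0 : (0 : ℝ) ≤ l := Nat.cast_nonneg l
  have hbig : ∀ p : ℕ, y0 < p → 2 * (l : ℝ) ^ 2 / (p : ℝ) ^ 2 ≤ 1 := by
    intro p hp
    have hp0 : (0 : ℝ) < p := by exact_mod_cast (by omega : 0 < p)
    rw [div_le_one (by positivity)]
    have h4 : 2 * l ≤ p := by nlinarith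
    have h5 : (2 : ℝ) * l ≤ p := by exact_mod_cast h4
    nlinarith
  have hf0 : ∀ p : ℕ, p.Prime → 0 ≤ f p := by
    intro p hp
    simp only [hf]
    split_ifs with h
    · positivity
    · have := hbig p (not_le.1 h)
      linarith
  have hterm : ∀ p ∈ P0 y, (1 - 1 / (p : ℝ)) ^ l * f p ≤ 1 - ((Z p).card : ℝ) / p := by
    intro p hp
    have hpp := (mem_filter.1 hp).2
    have hp2 : (2 : ℝ) ≤ p := by exact_mod_cast hpp.two_le
    have hp0 : (0 : ℝ) < p := by linarith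
    obtain ⟨h1, h2, _⟩ := hZ p hpp
    have hq0 : 0 ≤ 1 - 1 / (p : ℝ) := by
      rw [sub_nonneg, div_le_one hp0]; linarith
    have hq1 : 1 - 1 / (p : ℝ) ≤ 1 := by
      have : 0 ≤ 1 / (p : ℝ) := by positivity
      linarith
    have hqp1 : (1 - 1 / (p : ℝ)) ^ l ≤ 1 := pow_le_one₀ hq0 hq1
    have hqp0 : 0 ≤ (1 - 1 / (p : ℝ)) ^ l := pow_nonneg hq0 l
    simp only [hf]
    split_ifs with h
    · have h3 : ((Z p).card : ℝ) + 1 ≤ p := by exact_mod_cast h2
      have h4 : 1 / (p : ℝ) ≤ 1 - ((Z p).card : ℝ) / p := by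
        rw [one_sub_div hp0.ne', div_le_div_iff_of_pos_right hp0]
        linarith
      have h5 : (0 : ℝ) ≤ 1 / p := by positivity
      nlinarith
    · have hyp : y0 < p := not_le.1 h
      have h3 : ((Z p).card : ℝ) ≤ l := by exact_mod_cast h1
      have h4 : 2 * l ≤ p := by nlinarith
      have h5 : (2 : ℝ) * l ≤ p := by exact_mod_cast h4
      have hx : (l : ℝ) * (1 / p) ≤ 1 / 2 := by
        rw [mul_one_div, div_le_iff₀ hp0]; linarith
      have hx0 : 0 ≤ (l : ℝ) * (1 / p) := by positivity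
      have hquad := pow_le_quad l (1 / (p : ℝ)) (by positivity) (by rw [div_le_one hp0]; linarith)
      -- (1 - 1/p)^l ≥ 1 - l/p ≥ 1/2
      have hbern : 1 - (l : ℝ) * (1 / p) ≤ (1 - 1 / (p : ℝ)) ^ l := by
        have := one_add_mul_le_pow (a := -(1 / (p : ℝ))) (by
          have : 1 / (p : ℝ) ≤ 1 := by rw [div_le_one hp0]; linarith
          linarith) l
        have e : 1 + -(1 / (p : ℝ)) = 1 - 1 / (p : ℝ) := by ring
        rw [e] at this
        linarith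
      have h6 : 1 - (l : ℝ) / p ≤ 1 - ((Z p).card : ℝ) / p := by
        have : ((Z p).card : ℝ) / p ≤ (l : ℝ) / p := by gcongr
        linarith
      refine le_trans ?_ h6
      have e1 : 2 * (l : ℝ) ^ 2 / (p : ℝ) ^ 2 = 2 * ((l : ℝ) * (1 / p)) ^ 2 := by
        field_simp
      have e2 : (l : ℝ) / p = (l : ℝ) * (1 / p) := by ring
      rw [e1, e2]
      set u := (l : ℝ) * (1 / p) with hu
      set q := (1 - 1 / (p : ℝ)) ^ l with hq
      nlinarith [sq_nonneg u]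
  have hpr : ∏ p ∈ P0 y, ((1 - 1 / (p : ℝ)) ^ l * f p) ≤ VV Z 0 y := by
    have : VV Z 0 y = ∏ p ∈ P0 y, (1 - ((Z p).card : ℝ) / p) := rfl
    rw [this]
    apply Finset.prod_le_prod
    · intro p hp
      have hpp := (mem_filter.1 hp).2
      have hp2 : (2 : ℝ) ≤ p := by exact_mod_cast hpp.two_le
      have hq0 : 0 ≤ 1 - 1 / (p : ℝ) := by
        rw [sub_nonneg, div_le_one (by linarith)]; linarith
      exact mul_nonneg (pow_nonneg hq0 l) (hf0 p hpp)
    · exact hterm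
  refine le_trans ?_ hpr
  rw [prod_mul_distrib, prod_pow]
  have hA : c0 ^ l / Real.log y ^ l ≤ (∏ p ∈ P0 y, (1 - 1 / (p : ℝ))) ^ l := by
    rw [← div_pow]
    exact pow_le_pow_left₀ (by positivity) (hm y hy) l
  have hB : (1 / 2) * ∏ p ∈ P0 y0, (1 / (p : ℝ)) ≤ ∏ p ∈ P0 y, f p := by
    rw [← prod_filter_mul_prod_filter_not (P0 y) (fun p => p ≤ y0)]
    have h1 : ∏ p ∈ P0 y0, (1 / (p : ℝ)) ≤ ∏ p ∈ (P0 y).filter (fun p => p ≤ y0), f p := by
      have e : ∏ p ∈ (P0 y).filter (fun p => p ≤ y0), f p =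
          ∏ p ∈ (P0 y).filter (fun p => p ≤ y0), (1 / (p : ℝ)) := by
        apply prod_congr rfl
        intro p hp
        simp only [hf, if_pos (mem_filter.1 hp).2]
      rw [e]
      have hsub : (P0 y).filter (fun p => p ≤ y0) ⊆ P0 y0 := by
        intro p hp
        obtain ⟨h1, h2⟩ := mem_filter.1 hp
        rw [P0, mem_filter, mem_Ioc] at h1 ⊢
        exact ⟨⟨h1.1.1, h2⟩, h1.2⟩
      rw [← prod_sdiff hsub]
      have h8 : ∏ p ∈ P0 y0 \ (P0 y).filter (fun p => p ≤ y0), (1 / (p : ℝ)) ≤ 1 := by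
        apply prod_le_one
        · intro p _; positivity
        · intro p hp
          have := (mem_filter.1 (Finset.mem_sdiff.1 hp).1).2.one_lt
          have h3 : (1 : ℝ) < p := by exact_mod_cast this
          rw [div_le_one (by linarith)]; linarith
      have h9 : 0 ≤ ∏ p ∈ (P0 y).filter (fun p => p ≤ y0), (1 / (p : ℝ)) :=
        prod_nonneg fun _ _ => by positivity
      nlinarith
    have h2 : 1 / 2 ≤ ∏ p ∈ (P0 y).filter (fun p => ¬ p ≤ y0), f p := by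
      have e : ∏ p ∈ (P0 y).filter (fun p => ¬ p ≤ y0), f p =
          ∏ p ∈ (P0 y).filter (fun p => ¬ p ≤ y0), (1 - 2 * (l : ℝ) ^ 2 / (p : ℝ) ^ 2) := by
        apply prod_congr rfl
        intro p hp
        simp only [hf, if_neg (mem_filter.1 hp).2]
      rw [e]
      refine le_trans ?_ (one_sub_sum_le _ (fun p => 2 * (l : ℝ) ^ 2 / (p : ℝ) ^ 2)
        (fun p _ => by positivity) (fun p hp => hbig p (not_le.1 (mem_filter.1 hp).2)))
      have h7 := sum_inv_sq ((P0 y).filter (fun p => ¬ p ≤ y0)) y0 (by omega)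
        (fun p hp => not_le.1 (mem_filter.1 hp).2)
      have h8 : ∑ p ∈ (P0 y).filter (fun p => ¬ p ≤ y0), 2 * (l : ℝ) ^ 2 / (p : ℝ) ^ 2 =
          2 * (l : ℝ) ^ 2 * ∑ p ∈ (P0 y).filter (fun p => ¬ p ≤ y0), 1 / (p : ℝ) ^ 2 := by
        rw [mul_sum]
        apply sum_congr rfl
        intro p _
        ring
      rw [h8]
      have h9 : 2 * (l : ℝ) ^ 2 * (1 / y0) ≤ 1 / 2 := by
        have hy0' : (0 : ℝ) < y0 := by exact_mod_cast (by omega : 0 < y0)
        rw [mul_one_div, div_le_iff₀ hy0']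
        have : (4 * (l : ℝ) ^ 2 + 2 * l + 1) ≤ y0 := by rw [hy0]; push_cast; linarith
        nlinarith
      have h10 : 2 * (l : ℝ) ^ 2 * ∑ p ∈ (P0 y).filter (fun p => ¬ p ≤ y0), 1 / (p : ℝ) ^ 2 ≤
          2 * (l : ℝ) ^ 2 * (1 / y0) := by gcongr
      linarith
    have h3 : 0 ≤ ∏ p ∈ P0 y0, (1 / (p : ℝ)) := hprod0.le
    nlinarith
  calc c0 ^ l * ((1 / 2) * ∏ p ∈ P0 y0, (1 / (p : ℝ))) / Real.log y ^ l =
        c0 ^ l / Real.log y ^ l * ((1 / 2) * ∏ p ∈ P0 y0, (1 / (p : ℝ))) := by ring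
    _ ≤ _ := mul_le_mul hA hB (by positivity) (by
        apply pow_nonneg
        apply prod_nonneg
        intro p hp
        have hp2 : (2 : ℝ) ≤ p := by exact_mod_cast (mem_filter.1 hp).2.two_le
        rw [sub_nonneg, div_le_one (by linarith)]; linarith)

/-- `U` contains `m` terms of an arithmetic progression with difference between `1` and `D` -/
def HasAP (m : ℕ) (D : ℝ) (U : Finset ℕ) : Prop :=
  ∃ a d : ℕ, 1 ≤ d ∧ (d : ℝ) ≤ D ∧ ∀ j < m, a + j * d ∈ U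

/-- **Sifted sets in short intervals, uniformly in the classes.** -/
theorem baseZ (l : ℕ) : ∃ κ c : ℝ, 0 < κ ∧ κ ≤ 1 ∧ 0 < c ∧ ∀ (m : ℕ) (ρ : ℝ), 0 < ρ → ∃ B X₀ : ℕ,
    ∀ X A : ℕ, X₀ ≤ X → ∀ Z : ℕ → Finset ℕ, Adm l Z →
      c * X / Real.log X ^ l ≤ ((Sift Z κ A X).card : ℝ) ∧
      c * X * VV Z 0 X ≤ ((Sift Z κ A X).card : ℝ) ∧
      ∀ U ⊆ Sift Z κ A X, ρ * ((Sift Z κ A X).card : ℝ) ≤ U.card → HasAP m (Real.log X ^ B) U := by
  classical
  obtain ⟨κ0, c1, hκ0, hκ1, hc1, X1, hlow⟩ := lowZ l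
  obtain ⟨c2, hc2, hV⟩ := VV_ge l
  refine ⟨κ0, c1 * min 1 c2, hκ0, hκ1, by positivity, fun m ρ hρ => ?_⟩
  obtain ⟨B, X2, hB⟩ := Pool.Agent.Y843.HS.fin m l κ0 (ρ * c1) hκ0 (by positivity)
  obtain ⟨X3, hX3f⟩ := eventually_atTop.1 (floor_pow hκ0 2)
  refine ⟨B, max (max X1 X2) (max X3 3), fun X A hX Z hZ => ?_⟩
  have hX1 : X1 ≤ X := ((le_max_left _ _).trans (le_max_left _ _)).trans hX
  have hX2 : X2 ≤ X := ((le_max_right _ _).trans (le_max_left _ _)).trans hX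
  have hX3' : X3 ≤ X := ((le_max_left _ _).trans (le_max_right _ _)).trans hX
  have hX3 : 3 ≤ X := ((le_max_right _ _).trans (le_max_right _ _)).trans hX
  obtain ⟨h1, h2, h3⟩ := hX3f X hX3'
  have hX0 : (0 : ℝ) < X := by exact_mod_cast (by omega : 0 < X)
  have hX1' : (1 : ℝ) ≤ X := by exact_mod_cast (by omega : 1 ≤ X)
  have hlogX : 0 < Real.log X := Real.log_pos (by exact_mod_cast (by omega : 1 < X))
  have hl := hlow X A hX1 Z hZ
  set R : ℕ := ⌊(X : ℝ) ^ κ0⌋₊ with hR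
  have hRle : (R : ℝ) ≤ (X : ℝ) ^ κ0 := Nat.floor_le (by positivity)
  have hR0 : (0 : ℝ) < R := by exact_mod_cast (by omega : 0 < R)
  have hlogR : 0 < Real.log R := Real.log_pos (by exact_mod_cast (by omega : 1 < R))
  have hRX' : (R : ℝ) ≤ X := hRle.trans (by
    calc (X : ℝ) ^ κ0 ≤ (X : ℝ) ^ (1 : ℝ) := Real.rpow_le_rpow_of_exponent_le hX1' hκ1
      _ = X := Real.rpow_one _)
  have hRX : R ≤ X := by exact_mod_cast hRX'
  have hlogR2 : Real.log R ≤ Real.log X := Real.log_le_log hR0 hRX'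
  have hfac : ∀ p : ℕ, p.Prime → 0 ≤ 1 - ((Z p).card : ℝ) / p ∧ 1 - ((Z p).card : ℝ) / p ≤ 1 := by
    intro p hp
    have hp0 : (0 : ℝ) < p := by exact_mod_cast hp.pos
    have h6 : ((Z p).card : ℝ) ≤ p := by exact_mod_cast (hZ p hp).2.1.le
    have h7 : 0 ≤ ((Z p).card : ℝ) / p := div_nonneg (Nat.cast_nonneg _) hp0.le
    have h8 : ((Z p).card : ℝ) / p ≤ 1 := by rwa [div_le_one hp0]
    exact ⟨by linarith, by linarith⟩
  have hVR := hV Z hZ R h2
  have hbase : c2 / Real.log X ^ l ≤ VV Z 0 R := by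
    refine le_trans ?_ hVR
    apply div_le_div_of_nonneg_left hc2.le (by positivity)
    exact pow_le_pow_left₀ hlogR.le hlogR2 l
  have hVV0 : 0 ≤ VV Z 0 R := le_trans (by positivity) hbase
  refine ⟨?_, ?_, ?_⟩
  · refine le_trans ?_ hl
    have e : c1 * min 1 c2 * X / Real.log X ^ l ≤ c1 * X * (c2 / Real.log X ^ l) := by
      have : min 1 c2 ≤ c2 := min_le_right _ _
      calc c1 * min 1 c2 * X / Real.log X ^ l = c1 * X * (min 1 c2 / Real.log X ^ l) := by ring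
        _ ≤ _ := by gcongr
    refine e.trans ?_
    gcongr
  · refine le_trans ?_ hl
    have hle : VV Z 0 X ≤ VV Z 0 R := by
      unfold VV
      have hsub2 : Pr 0 R ⊆ Pr 0 X := by
        intro p hp
        rw [Pr, mem_filter, mem_Ioc] at hp ⊢
        exact ⟨⟨hp.1.1, by omega⟩, hp.2⟩
      rw [← prod_sdiff hsub2]
      have h8 : ∏ p ∈ Pr 0 X \ Pr 0 R, (1 - ((Z p).card : ℝ) / p) ≤ 1 := by
        apply prod_le_one
        · intro p hp
          exact (hfac p (mem_filter.1 (Finset.mem_sdiff.1 hp).1).2).1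
        · intro p hp
          exact (hfac p (mem_filter.1 (Finset.mem_sdiff.1 hp).1).2).2
      have h9 : 0 ≤ ∏ p ∈ Pr 0 R, (1 - ((Z p).card : ℝ) / p) := by
        apply prod_nonneg
        intro p hp
        exact (hfac p (mem_filter.1 hp).2).1
      nlinarith
    have hm1 : c1 * min 1 c2 ≤ c1 := by
      have : min 1 c2 ≤ 1 := min_le_left _ _
      nlinarith
    calc c1 * min 1 c2 * X * VV Z 0 X ≤ c1 * min 1 c2 * X * VV Z 0 R := by gcongr
      _ ≤ c1 * X * VV Z 0 R := by gcongr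
  · intro U hU hc
    apply hB X A hX2 Z (fun p hp _ => hZ p hp) U (hU.trans (filter_subset _ _))
    · intro n hn p hp hpX
      exact (mem_filter.1 (hU hn)).2 p hp hpX
    · calc ρ * c1 * X * VV Z 0 R = ρ * (c1 * X * VV Z 0 R) := by ring
        _ ≤ ρ * ((Sift Z κ0 A X).card : ℝ) := by gcongr
        _ ≤ _ := hc

end Pool.Agent.X58.IV
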