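import Mathlib
import Pool.Agent.X58.IV.Vol

set_option autoImplicit false
set_option maxHeartbeats 4000000

/-!
# Linear forms with integer coefficients free of small prime factors in short intervals
-/

namespace Pool.Agent.X58.IV

open Finset Filter Topology
open Pool.Agent.Y843.HS (Pr VV)

open Classical in
/-- the classes modulo `p` at which `p` divides the value of a form of `F` -/
noncomputable def ZF (F : Finset (ℤ × ℤ)) (p : ℕ) : Finset ℕ :=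
  (range p).filter (fun c => ∃ L ∈ F, (p : ℤ) ∣ L.1 * (c : ℤ) + L.2)

lemma mod_dvd (a b : ℤ) (p n : ℕ) : (p : ℤ) ∣ a * ((n % p : ℕ) : ℤ) + b ↔ (p : ℤ) ∣ a * (n : ℤ) + b := by
  have h : (n : ℤ) = ((n % p : ℕ) : ℤ) + p * ((n / p : ℕ) : ℤ) := by
    exact_mod_cast (Nat.mod_add_div n p).symm
  have e : a * (n : ℤ) + b = (a * ((n % p : ℕ) : ℤ) + b) + p * (a * ((n / p : ℕ) : ℤ)) := by
    conv_lhs => rw [h]
    ring
  rw [e]
  exact (dvd_add_left (Dvd.intro _ rfl)).symm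

lemma mem_ZF (F : Finset (ℤ × ℤ)) {p : ℕ} (hp : 0 < p) (n : ℕ) :
    n % p ∈ ZF F p ↔ ∃ L ∈ F, (p : ℤ) ∣ L.1 * (n : ℤ) + L.2 := by
  unfold ZF
  rw [mem_filter, mem_range]
  constructor
  · rintro ⟨_, L, hL, h⟩
    exact ⟨L, hL, (mod_dvd _ _ _ _).1 h⟩
  · rintro ⟨L, hL, h⟩
    exact ⟨Nat.mod_lt _ hp, L, hL, (mod_dvd _ _ _ _).2 h⟩

lemma card_ZF_le (F : Finset (ℤ × ℤ)) (hF : ∀ L ∈ F, IsCoprime L.1 L.2) {p : ℕ} (hp : p.Prime) :
    (ZF F p).card ≤ F.card := by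
  classical
  have hex : ∀ c ∈ ZF F p, ∃ L ∈ F, (p : ℤ) ∣ L.1 * (c : ℤ) + L.2 := fun c hc => (mem_filter.1 hc).2
  choose! g hg1 hg2 using hex
  apply card_le_card_of_injOn g (fun c hc => hg1 c hc)
  intro c hc c' hc' he
  have h1 := hg2 c hc
  have h2 := hg2 c' hc'
  rw [← he] at h2
  have h3 : (p : ℤ) ∣ (g c).1 * ((c : ℤ) - c') := by
    have h4 := dvd_sub h1 h2
    have e : (g c).1 * (c : ℤ) + (g c).2 - ((g c).1 * (c' : ℤ) + (g c).2) = (g c).1 * ((c : ℤ) - c') := by ring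
    rwa [e] at h4
  have hp' : Prime (p : ℤ) := Nat.prime_iff_prime_int.1 hp
  rcases hp'.dvd_or_dvd h3 with h4 | h4
  · exfalso
    have h5 : (p : ℤ) ∣ (g c).2 := (dvd_add_right (h4.mul_right _)).1 h1
    have := (hF _ (hg1 c hc)).isUnit_of_dvd' h4 h5
    exact hp'.not_isUnit this
  · have hc1 : c < p := mem_range.1 (mem_filter.1 hc).1
    have hc1' : c' < p := mem_range.1 (mem_filter.1 hc').1
    have h6 : ((c : ℤ) - c') = 0 := by
      apply Int.eq_zero_of_abs_lt_dvd h4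
      rw [abs_lt]
      constructor <;> omega
    omega

lemma card_ZF_lt (F : Finset (ℤ × ℤ)) {p : ℕ} (hp : p.Prime)
    (h : ∃ n : ℕ, ∀ L ∈ F, ¬ (p : ℤ) ∣ L.1 * (n : ℤ) + L.2) : (ZF F p).card < p := by
  obtain ⟨n, hn⟩ := h
  have h1 : n % p ∉ ZF F p := by
    rw [mem_ZF F hp.pos]
    rintro ⟨L, hL, h⟩
    exact hn L hL h
  have h2 : ZF F p ⊂ range p := by
    have hsub : ZF F p ⊆ range p := filter_subset _ _
    refine (ssubset_iff_of_subset hsub).2 ?_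
    exact ⟨n % p, mem_range.2 (Nat.mod_lt _ hp.pos), h1⟩
  have := card_lt_card h2
  rwa [card_range] at this

/-- for every prime `p` the forms of `F` have simultaneously values prime to `p` -/
def Locally (F : Finset (ℤ × ℤ)) : Prop :=
  ∀ p : ℕ, p.Prime → ∃ n : ℕ, ∀ L ∈ F, ¬ (p : ℤ) ∣ L.1 * (n : ℤ) + L.2

lemma adm_ZF (F : Finset (ℤ × ℤ)) (l : ℕ) (hl : F.card ≤ l) (hF : ∀ L ∈ F, IsCoprime L.1 L.2)
    (h : Locally F) : Adm l (ZF F) := by
  intro p hp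
  refine ⟨(card_ZF_le F hF hp).trans hl, card_ZF_lt F hp (h p hp), fun c hc => ?_⟩
  exact mem_range.1 (mem_filter.1 hc).1

open Classical in
/-- the `n` of `(A, A + X]` such that all prime factors of the values of the forms of `F` are `> X ^ κ` -/
noncomputable def Free (F : Finset (ℤ × ℤ)) (κ : ℝ) (A X : ℕ) : Finset ℕ :=
  (Ioc A (A + X)).filter (fun n => ∀ L ∈ F, ∀ p : ℕ, p.Prime → (p : ℤ) ∣ L.1 * (n : ℤ) + L.2 → (X : ℝ) ^ κ < p)

lemma sift_eq (F : Finset (ℤ × ℤ)) (κ : ℝ) (A X : ℕ) : Sift (ZF F) κ A X = Free F κ A X := by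
  classical
  unfold Sift Free
  apply filter_congr
  intro n _
  constructor
  · intro h L hL p hp hd
    by_contra hcon
    exact h p hp (not_lt.1 hcon) ((mem_ZF F hp.pos n).2 ⟨L, hL, hd⟩)
  · intro h p hp hpX hmem
    obtain ⟨L, hL, hd⟩ := (mem_ZF F hp.pos n).1 hmem
    exact absurd (h L hL p hp hd) (not_lt.2 hpX)

/-- the number of the classes modulo `p` at which `p` divides the value of a form of `F` -/
noncomputable def om (F : Finset (ℤ × ℤ)) (p : ℕ) : ℕ := (ZF F p).card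

/-- the product of the local densities `1 - om F p / p` over the primes `p ≤ X` -/
noncomputable def Vol (F : Finset (ℤ × ℤ)) (X : ℕ) : ℝ :=
  ∏ p ∈ (Ioc 0 X).filter Nat.Prime, (1 - (om F p : ℝ) / p)

lemma vol_eq (F : Finset (ℤ × ℤ)) (X : ℕ) : Vol F X = VV (ZF F) 0 X := rfl

lemma vol_anti (F : Finset (ℤ × ℤ)) (h : Locally F) {X Y : ℕ} (hXY : X ≤ Y) : Vol F Y ≤ Vol F X := by
  classical
  have hfac : ∀ p : ℕ, p.Prime → 0 ≤ 1 - (om F p : ℝ) / p ∧ 1 - (om F p : ℝ) / p ≤ 1 := by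
    intro p hp
    have hp0 : (0 : ℝ) < p := by exact_mod_cast hp.pos
    have h6 : (om F p : ℝ) ≤ p := by exact_mod_cast (card_ZF_lt F hp (h p hp)).le
    have h7 : 0 ≤ (om F p : ℝ) / p := div_nonneg (Nat.cast_nonneg _) hp0.le
    have h8 : (om F p : ℝ) / p ≤ 1 := by rwa [div_le_one hp0]
    exact ⟨by linarith, by linarith⟩
  unfold Vol
  have hsub2 : (Ioc 0 X).filter Nat.Prime ⊆ (Ioc 0 Y).filter Nat.Prime := by
    intro p hp
    rw [mem_filter, mem_Ioc] at hp ⊢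
    exact ⟨⟨hp.1.1, by omega⟩, hp.2⟩
  rw [← prod_sdiff hsub2]
  have h8 : ∏ p ∈ (Ioc 0 Y).filter Nat.Prime \ (Ioc 0 X).filter Nat.Prime, (1 - (om F p : ℝ) / p) ≤ 1 := by
    apply prod_le_one
    · intro p hp
      exact (hfac p (mem_filter.1 (Finset.mem_sdiff.1 hp).1).2).1
    · intro p hp
      exact (hfac p (mem_filter.1 (Finset.mem_sdiff.1 hp).1).2).2
  have h9 : 0 ≤ ∏ p ∈ (Ioc 0 X).filter Nat.Prime, (1 - (om F p : ℝ) / p) := by
    apply prod_nonneg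
    intro p hp
    exact (hfac p (mem_filter.1 hp).2).1
  nlinarith

/-- **Linear forms in short intervals, uniformly in the forms.** -/
theorem baseF (l : ℕ) : ∃ κ c : ℝ, 0 < κ ∧ κ ≤ 1 ∧ 0 < c ∧
    (∀ F : Finset (ℤ × ℤ), F.card ≤ l → (∀ L ∈ F, IsCoprime L.1 L.2) → Locally F → ∀ Y : ℕ, 2 ≤ Y →
      c / Real.log Y ^ l ≤ Vol F Y) ∧
    ∀ (m : ℕ) (ρ : ℝ), 0 < ρ → ∃ B X₀ : ℕ,
    ∀ X A : ℕ, X₀ ≤ X → ∀ F : Finset (ℤ × ℤ), F.card ≤ l → (∀ L ∈ F, IsCoprime L.1 L.2) → Locally F →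
      c * X * Vol F X ≤ ((Free F κ A X).card : ℝ) ∧
      ∀ U ⊆ Free F κ A X, ρ * ((Free F κ A X).card : ℝ) ≤ U.card → HasAP m (Real.log X ^ B) U := by
  obtain ⟨κ, c, hκ, hκ1, hc, h⟩ := baseZ l
  obtain ⟨c2, hc2, hV⟩ := VV_ge l
  refine ⟨κ, min c c2, hκ, hκ1, by positivity, ?_, fun m ρ hρ => ?_⟩
  · intro F hl hF hloc Y hY
    rw [vol_eq]
    refine le_trans ?_ (hV (ZF F) (adm_ZF F l hl hF hloc) Y hY)
    have hlog : 0 < Real.log Y := Real.log_pos (by exact_mod_cast (by omega : 1 < Y))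
    gcongr
    exact min_le_right _ _
  obtain ⟨B, X₀, hB⟩ := h m ρ hρ
  refine ⟨B, max X₀ 2, fun X A hX F hl hF hloc => ?_⟩
  obtain ⟨h1, h2, h3⟩ := hB X A ((le_max_left _ _).trans hX) (ZF F) (adm_ZF F l hl hF hloc)
  rw [sift_eq] at h2 h3
  refine ⟨?_, h3⟩
  refine le_trans ?_ h2
  rw [vol_eq]
  have hX0 : (0 : ℝ) ≤ X := Nat.cast_nonneg X
  have hV0 : 0 ≤ VV (ZF F) 0 X := by
    have hX2 : 2 ≤ X := (le_max_right _ _).trans hX
    have hlog : 0 < Real.log X := Real.log_pos (by exact_mod_cast (by omega : 1 < X))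
    exact le_trans (by positivity) (hV (ZF F) (adm_ZF F l hl hF hloc) X hX2)
  gcongr
  exact min_le_left _ _

lemma pow_le_prod (z : ℝ) (hz : 0 ≤ z) (L : List ℕ) (h : ∀ p ∈ L, z ≤ (p : ℝ)) :
    z ^ L.length ≤ (L.prod : ℝ) := by
  induction L with
  | nil => simp
  | cons a L ih =>
    rw [List.length_cons, List.prod_cons, pow_succ]
    push_cast
    have h1 := ih (fun p hp => h p (List.mem_cons_of_mem _ hp))
    have h2 := h a List.mem_cons_self
    have h3 : (0 : ℝ) ≤ z ^ L.length := pow_nonneg hz _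
    have h4 : (0 : ℝ) ≤ a := Nat.cast_nonneg a
    calc z ^ L.length * z ≤ (L.prod : ℝ) * a := mul_le_mul h1 h2 hz (h3.trans h1)
      _ = _ := by push_cast; ring

/-- a number at most `z ^ r` without prime factors `≤ z` has at most `r` prime factors -/
lemma few_factors (v r : ℕ) (z : ℝ) (hz : 1 < z) (hv : v ≠ 0) (hle : (v : ℝ) ≤ z ^ r)
    (h : ∀ p : ℕ, p.Prime → p ∣ v → z < p) : v.primeFactorsList.length ≤ r := by
  by_contra hcon
  have h1 := pow_le_prod z (by linarith) v.primeFactorsList (fun p hp =>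
    (h p (Nat.prime_of_mem_primeFactorsList hp) (Nat.dvd_of_mem_primeFactorsList hp)).le)
  rw [Nat.prod_primeFactorsList hv] at h1
  have h2 : z ^ r < z ^ v.primeFactorsList.length := pow_lt_pow_right₀ hz (not_le.1 hcon)
  linarith

end Pool.Agent.X58.IV
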