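import Mathlib
import Pool.Agent.X58.IV.Forms

set_option autoImplicit false
set_option maxHeartbeats 4000000

/-!
# Upper bound sieve, and the comparison of sieve products
-/

namespace Pool.Agent.X58.IV

open Finset Filter Topology
open Pool.Agent.Y843.HS (Pr VV Sv)
open Pool.Agent.Y840.PT (P0 prod_low floor_pow)

lemma fac {l : ℕ} {Z : ℕ → Finset ℕ} (hZ : Adm l Z) {p : ℕ} (hp : p.Prime) :
    1 / (p : ℝ) ≤ 1 - ((Z p).card : ℝ) / p ∧ 1 - ((Z p).card : ℝ) / p ≤ 1 := by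
  have hp0 : (0 : ℝ) < p := by exact_mod_cast hp.pos
  have h6 : ((Z p).card : ℝ) + 1 ≤ p := by exact_mod_cast (hZ p hp).2.1
  have h7 : 0 ≤ ((Z p).card : ℝ) / p := div_nonneg (Nat.cast_nonneg _) hp0.le
  refine ⟨?_, by linarith⟩
  rw [one_sub_div hp0.ne', div_le_div_iff_of_pos_right hp0]
  linarith

lemma VV_pos {l : ℕ} {Z : ℕ → Finset ℕ} (hZ : Adm l Z) (a b : ℕ) : 0 < VV Z a b := by
  unfold VV
  apply prod_pos
  intro p hp
  have hpp := (mem_filter.1 hp).2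
  have hp0 : (0 : ℝ) < p := by exact_mod_cast hpp.pos
  exact lt_of_lt_of_le (by positivity) (fac hZ hpp).1

lemma VV_le_one {l : ℕ} {Z : ℕ → Finset ℕ} (hZ : Adm l Z) (a b : ℕ) : VV Z a b ≤ 1 := by
  unfold VV
  apply prod_le_one
  · intro p hp
    have hpp := (mem_filter.1 hp).2
    exact le_trans (by positivity) (fac hZ hpp).1
  · intro p hp
    exact (fac hZ (mem_filter.1 hp).2).2

lemma VV_split (Z : ℕ → Finset ℕ) {a b c : ℕ} (hab : a ≤ b) (hbc : b ≤ c) :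
    VV Z a c = VV Z a b * VV Z b c := by
  classical
  unfold VV
  rw [← prod_union]
  · congr 1
    ext p
    simp only [Pr, mem_union, mem_filter, mem_Ioc]
    constructor
    · rintro ⟨h, hp⟩
      by_cases h9 : p ≤ b
      · exact Or.inl ⟨⟨h.1, h9⟩, hp⟩
      · exact Or.inr ⟨⟨by omega, h.2⟩, hp⟩
    · rintro (⟨h, hp⟩ | ⟨h, hp⟩)
      · exact ⟨⟨h.1, by omega⟩, hp⟩
      · exact ⟨⟨by omega, h.2⟩, hp⟩
  · rw [disjoint_left]
    intro p hp hp'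
    rw [Pr, mem_filter, mem_Ioc] at hp hp'
    omega

lemma VV_anti {l : ℕ} {Z : ℕ → Finset ℕ} (hZ : Adm l Z) {b c : ℕ} (hbc : b ≤ c) :
    VV Z 0 c ≤ VV Z 0 b := by
  rw [VV_split Z (Nat.zero_le b) hbc]
  have h1 := VV_pos hZ 0 b
  have h2 := VV_le_one hZ b c
  nlinarith

/-- the sieve products up to `R` and up to `Y ≤ R ^ L` are of the same order -/
lemma VV_comp (l L : ℕ) : ∃ c : ℝ, 0 < c ∧ ∃ R₀ : ℕ, ∀ Z : ℕ → Finset ℕ, Adm l Z → ∀ R Y : ℕ, R₀ ≤ R →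
    Y ≤ R ^ L → c * VV Z 0 R ≤ VV Z 0 Y := by
  obtain ⟨c, hc, R₀, h⟩ := Pool.Agent.Y79.HS.den l L
  refine ⟨min c 1, by positivity, R₀, fun Z hZ R Y hR hY => ?_⟩
  have h0 := VV_pos hZ 0 R
  rcases le_total R Y with hRY | hRY
  · rw [VV_split Z (Nat.zero_le R) hRY]
    have h1 : c ≤ VV Z R Y := h R Y hR hY Z (by
      intro p hp
      have hpp := (mem_filter.1 hp).2
      exact ⟨(hZ p hpp).1, (hZ p hpp).2.2⟩)
    have h2 : min c 1 ≤ c := min_le_left _ _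
    nlinarith
  · have h1 := VV_anti hZ hRY
    have h2 : min c 1 ≤ 1 := min_le_right _ _
    nlinarith

/-- the sieve products at powers of `X` and `N`, `N ^ θ ≤ X`, are of the same order -/
lemma VV_comp_pow (l : ℕ) (κ θ : ℝ) (hκ : 0 < κ) (hθ : 0 < θ) : ∃ c : ℝ, 0 < c ∧ ∃ N₀ : ℕ,
    ∀ Z : ℕ → Finset ℕ, Adm l Z → ∀ N X : ℕ, N₀ ≤ N → (N : ℝ) ^ θ ≤ X →
    c * VV Z 0 ⌊(X : ℝ) ^ κ⌋₊ ≤ VV Z 0 N := by
  obtain ⟨L, hL⟩ : ∃ L : ℕ, L = ⌈2 / (θ * κ)⌉₊ := ⟨_, rfl⟩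
  obtain ⟨c, hc, R₀, h⟩ := VV_comp l L
  have tN : Tendsto (fun N : ℕ => (N : ℝ)) atTop atTop := tendsto_natCast_atTop_atTop
  have t1 : Tendsto (fun N : ℕ => (N : ℝ) ^ (θ * κ / 2)) atTop atTop :=
    (tendsto_rpow_atTop (by positivity)).comp tN
  obtain ⟨N₁, hN₁⟩ := eventually_atTop.1 (t1.eventually_ge_atTop (max 2 (R₀ : ℝ)))
  refine ⟨c, hc, max N₁ 1, fun Z hZ N X hN hX => ?_⟩
  have hN1 : 1 ≤ N := (le_max_right _ _).trans hN
  have hNr : (1 : ℝ) ≤ N := by exact_mod_cast hN1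
  have hN0 : (0 : ℝ) < N := by linarith
  have h1 := hN₁ N ((le_max_left _ _).trans hN)
  have h2 : 2 ≤ (N : ℝ) ^ (θ * κ / 2) := (le_max_left _ _).trans h1
  have h3 : (R₀ : ℝ) ≤ (N : ℝ) ^ (θ * κ / 2) := (le_max_right _ _).trans h1
  have hXκ : (N : ℝ) ^ (θ * κ / 2) * (N : ℝ) ^ (θ * κ / 2) ≤ (X : ℝ) ^ κ := by
    rw [← Real.rpow_add hN0]
    have e : θ * κ / 2 + θ * κ / 2 = θ * κ := by ring
    rw [e, Real.rpow_mul hN0.le]
    exact Real.rpow_le_rpow (by positivity) hX hκ.le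
  have hfl : (N : ℝ) ^ (θ * κ / 2) ≤ (⌊(X : ℝ) ^ κ⌋₊ : ℝ) := by
    have := Nat.lt_floor_add_one ((X : ℝ) ^ κ)
    nlinarith
  apply h Z hZ
  · exact_mod_cast h3.trans hfl
  · have hL1 : 2 / (θ * κ) ≤ L := by rw [hL]; exact Nat.le_ceil _
    have h5 : (N : ℝ) ≤ (⌊(X : ℝ) ^ κ⌋₊ : ℝ) ^ L := by
      calc (N : ℝ) = (N : ℝ) ^ (1 : ℝ) := (Real.rpow_one _).symm
        _ ≤ (N : ℝ) ^ (θ * κ / 2 * L) := by
            apply Real.rpow_le_rpow_of_exponent_le hNr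
            rw [div_le_iff₀ (by positivity)] at hL1
            linarith
        _ = ((N : ℝ) ^ (θ * κ / 2)) ^ L := by
            rw [Real.rpow_mul hN0.le, Real.rpow_natCast]
        _ ≤ _ := pow_le_pow_left₀ (by positivity) hfl L
    exact_mod_cast h5

/-- **The upper bound sieve, uniformly in the classes** -/
theorem upZ (l : ℕ) (κ : ℝ) (hκ : 0 < κ) : ∃ C : ℝ, 0 < C ∧ ∃ X₀ : ℕ, ∀ X A : ℕ, X₀ ≤ X →
    ∀ Z : ℕ → Finset ℕ, Adm l Z → ∀ S : Finset ℕ, S ⊆ Ioc A (A + X) →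
    (∀ n ∈ S, ∀ p : ℕ, p.Prime → (p : ℝ) ≤ (X : ℝ) ^ κ → n % p ∉ Z p) →
    (S.card : ℝ) ≤ C * X * VV Z 0 ⌊(X : ℝ) ^ κ⌋₊ := by
  classical
  obtain ⟨C, hC1, hfl⟩ := Pool.Agent.Y151.HS.flc
  set b : ℕ := 4 * (C * (l + 1)) with hb
  have hb1 : 1 ≤ b := by
    have : 1 ≤ C * (l + 1) := Nat.mul_pos hC1 (by omega)
    omega
  set s : ℕ := C * (l + 1) with hs
  set E : ℕ := C * b with hE
  have hE1 : 1 ≤ E := Nat.mul_pos hC1 hb1
  set D : ℕ := ∏ p ∈ P0 s, p with hD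
  have hD1 : 1 ≤ D := Nat.pos_of_ne_zero (prod_ne_zero_iff.2 fun p hp => (mem_filter.1 hp).2.ne_zero)
  have hD0 : (0 : ℝ) < D := by exact_mod_cast hD1
  have hE0 : (0 : ℝ) < E := by exact_mod_cast hE1
  set κ' : ℝ := min κ (1 / (4 * E)) with hκ'
  have hκ'0 : 0 < κ' := by positivity
  have hκ'1 : κ' ≤ κ := min_le_left _ _
  have hκ'2 : κ' ≤ 1 / (4 * E) := min_le_right _ _
  obtain ⟨L, hL⟩ : ∃ L : ℕ, L = ⌈4 * κ / κ'⌉₊ := ⟨_, rfl⟩
  obtain ⟨c₁, hc₁, R₀, hcomp⟩ := VV_comp l L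
  have tN : Tendsto (fun N : ℕ => (N : ℝ)) atTop atTop := tendsto_natCast_atTop_atTop
  have t1 : Tendsto (fun N : ℕ => (N : ℝ) ^ (κ' / 4)) atTop atTop :=
    (tendsto_rpow_atTop (by positivity)).comp tN
  obtain ⟨X₂, hX₂⟩ := eventually_atTop.1 ((floor_pow (show 0 < κ' / 2 by positivity)
    (max R₀ (max (s + 1) 4))).and (t1.eventually_ge_atTop 2))
  refine ⟨3 * D / c₁, by positivity, max X₂ 3, fun X A hX Z hZ S hS hfree => ?_⟩
  obtain ⟨⟨h1, h2, h3⟩, h4⟩ := hX₂ X ((le_max_left _ _).trans hX)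
  have hX3 : 3 ≤ X := (le_max_right _ _).trans hX
  have hX0 : (0 : ℝ) < X := by exact_mod_cast (by omega : 0 < X)
  have hX1 : (1 : ℝ) ≤ X := by exact_mod_cast (by omega : 1 ≤ X)
  set R : ℕ := ⌊(X : ℝ) ^ (κ' / 2)⌋₊ with hR
  have hRR₀ : R₀ ≤ R := (le_max_left _ _).trans h1
  have hRs : s + 1 ≤ R := ((le_max_left _ _).trans (le_max_right _ _)).trans h1
  have hR4 : 4 ≤ R := ((le_max_right _ _).trans (le_max_right _ _)).trans h1
  have hRle : (R : ℝ) ≤ (X : ℝ) ^ (κ' / 2) := Nat.floor_le (by positivity)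
  set J : ℕ := Nat.log 2 (Nat.log 2 R) + 1 with hJ
  have hRz : R < 2 ^ 2 ^ J := Pool.Agent.Y959.Sv.JJ_lt R
  have hzR : 2 ^ 2 ^ J ≤ R ^ 2 := Pool.Agent.Y959.Sv.JJ_le R (by omega)
  set z : ℕ := 2 ^ 2 ^ J with hz
  have hzX' : (z : ℝ) ≤ (X : ℝ) ^ κ' := by
    calc (z : ℝ) ≤ (R : ℝ) ^ 2 := by exact_mod_cast hzR
      _ ≤ ((X : ℝ) ^ (κ' / 2)) ^ 2 := pow_le_pow_left₀ (Nat.cast_nonneg _) hRle 2
      _ = (X : ℝ) ^ κ' := by
          rw [← Real.rpow_natCast, ← Real.rpow_mul hX0.le]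
          congr 1
          push_cast
          ring
  have hmemPr : ∀ p, p ∈ Pr s z ↔ (s < p ∧ p ≤ z) ∧ p.Prime := by
    intro p; rw [Pr, mem_filter, mem_Ioc]
  have key := hfl l b s J (by omega) le_rfl Z (by
      intro p hp
      rw [hmemPr] at hp
      exact ⟨(hZ p hp.2).1, (hZ p hp.2).2.2⟩) 1 0 A X le_rfl (by
      intro p hp hd
      rw [hmemPr] at hp
      exact hp.2.one_lt.ne' (Nat.dvd_one.1 hd))
  set V := ∏ p ∈ Pr s z, (1 - ((Z p).card : ℝ) / p) with hV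
  have hzX : (z : ℝ) ^ E ≤ (X : ℝ) ^ (1 / 4 : ℝ) := by
    calc (z : ℝ) ^ E ≤ ((X : ℝ) ^ κ') ^ E := pow_le_pow_left₀ (Nat.cast_nonneg _) hzX' E
      _ = (X : ℝ) ^ (κ' * E) := by rw [← Real.rpow_natCast, ← Real.rpow_mul hX0.le]
      _ ≤ (X : ℝ) ^ (1 / 4 : ℝ) := by
          apply Real.rpow_le_rpow_of_exponent_le hX1
          calc κ' * E ≤ 1 / (4 * E) * E := by gcongr
            _ = 1 / 4 := by field_simp
  have hVlow : 1 / (z : ℝ) ^ l ≤ V := by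
    apply prod_low l (Pr s z) z _ _ (fun p => ((Z p).card : ℝ))
    · intro p hp
      rw [hmemPr] at hp
      exact_mod_cast (hZ p hp.2).1
    · have : l + 1 ≤ s := Nat.le_mul_of_pos_left _ hC1
      omega
    · intro p hp
      rw [hmemPr] at hp
      have : l + 1 ≤ s := Nat.le_mul_of_pos_left _ hC1
      exact ⟨by omega, hp.1.2⟩
  have hz1 : (1 : ℝ) ≤ z := by exact_mod_cast (by omega : 1 ≤ z)
  have hzl : (z : ℝ) ^ l ≤ (X : ℝ) ^ (1 / 4 : ℝ) := by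
    refine le_trans (pow_le_pow_right₀ hz1 ?_) hzX
    have : l + 1 ≤ C * (l + 1) := Nat.le_mul_of_pos_left _ hC1
    calc l ≤ b := by omega
      _ ≤ E := Nat.le_mul_of_pos_left _ hC1
  have hV0 : 0 < V := lt_of_lt_of_le (by positivity) hVlow
  set Y : ℝ := (X : ℝ) ^ (1 / 4 : ℝ) with hY
  have hY0 : 0 < Y := by positivity
  have hYX : (X : ℝ) = Y * Y * Y * Y := by
    rw [hY, ← Real.rpow_add hX0, ← Real.rpow_add hX0, ← Real.rpow_add hX0]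
    norm_num
  have hY1 : 1 ≤ Y := Real.one_le_rpow hX1 (by norm_num)
  have herr : (z : ℝ) ^ (C * b) ≤ X * V := by
    have h5 : 1 / Y ≤ V := by
      refine le_trans ?_ hVlow
      exact one_div_le_one_div_of_le (by positivity) hzl
    calc (z : ℝ) ^ (C * b) ≤ Y := hzX
      _ ≤ X * (1 / Y) := by
          have e : (X : ℝ) * (1 / Y) = Y * Y * Y := by
            rw [hYX]; field_simp
          rw [e]
          nlinarith [mul_pos hY0 hY0]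
      _ ≤ _ := by gcongr
  have hhalf : (1 / 2 : ℝ) ^ b ≤ 1 := pow_le_one₀ (by norm_num) (by norm_num)
  have hXV : 0 < (X : ℝ) * V := by positivity
  have hcount : (((Ioc A (A + X)).filter (fun x => x % 1 = 0 % 1 ∧ ∀ p ∈ Pr s z, x % p ∉ Z p)).card : ℝ) ≤
      3 * (X * V) := by
    have h5 := (abs_le.1 key).2
    have h6 : (1 / 2 : ℝ) ^ b * ((X : ℝ) / (1 : ℕ) * V) ≤ X * V := by
      rw [Nat.cast_one, div_one]
      nlinarith
    have h7 : ((2 : ℝ) ^ 2 ^ J) ^ (C * b) = (z : ℝ) ^ (C * b) := by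
      rw [hz]; push_cast; rfl
    rw [h7] at h5
    have h8 : (((Ioc A (A + X)).filter (fun x => x % 1 = 0 % 1 ∧
        ∀ p ∈ Pr s z, x % p ∉ Z p)).card : ℝ) = (((Ioc A (A + X)).filter (fun x => x % 1 = 0 % 1 ∧
        ∀ p ∈ Pr s (2 ^ 2 ^ J), x % p ∉ Z p)).card : ℝ) := by
      congr!
    rw [h8]
    have h9 : (X : ℝ) / (1 : ℕ) * V = X * V := by rw [Nat.cast_one, div_one]
    rw [h9] at h5 h6
    linarith
  have hsub : S ⊆ (Ioc A (A + X)).filter (fun x => x % 1 = 0 % 1 ∧ ∀ p ∈ Pr s z, x % p ∉ Z p) := by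
    intro n hn
    rw [mem_filter]
    refine ⟨hS hn, by simp [Nat.mod_one], fun p hp => ?_⟩
    rw [hmemPr] at hp
    apply hfree n hn p hp.2
    calc (p : ℝ) ≤ z := by exact_mod_cast hp.1.2
      _ ≤ (X : ℝ) ^ κ' := hzX'
      _ ≤ _ := Real.rpow_le_rpow_of_exponent_le hX1 hκ'1
  -- compare the products
  have hVD : V ≤ D * VV Z 0 z := by
    rw [VV_split Z (Nat.zero_le s) (by omega : s ≤ z)]
    have h5 : 1 / (D : ℝ) ≤ VV Z 0 s := by
      unfold VV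
      have e : (1 : ℝ) / D = ∏ p ∈ Pr 0 s, 1 / (p : ℝ) := by
        rw [prod_div_distrib, prod_const_one, hD]
        push_cast
        rfl
      rw [e]
      apply Finset.prod_le_prod
      · intro p _; positivity
      · intro p hp
        exact (fac hZ (mem_filter.1 hp).2).1
    have h6 : VV Z s z = V := rfl
    rw [h6]
    calc V = D * (1 / D * V) := by field_simp
      _ ≤ _ := by gcongr
  have hzc : c₁ * VV Z 0 z ≤ VV Z 0 ⌊(X : ℝ) ^ κ⌋₊ := by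
    apply hcomp Z hZ z _ (hRR₀.trans hRz.le)
    have hL1 : 4 * κ / κ' ≤ L := by rw [hL]; exact Nat.le_ceil _
    have hRlow : (X : ℝ) ^ (κ' / 4) ≤ R := by
      have h5 := Nat.lt_floor_add_one ((X : ℝ) ^ (κ' / 2))
      have h6 : (X : ℝ) ^ (κ' / 2) = (X : ℝ) ^ (κ' / 4) * (X : ℝ) ^ (κ' / 4) := by
        rw [← Real.rpow_add hX0]; congr 1; ring
      rw [← hR] at h5
      nlinarith
    have h5 : (X : ℝ) ^ κ ≤ ((z ^ L : ℕ) : ℝ) := by
      push_cast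
      calc (X : ℝ) ^ κ ≤ (X : ℝ) ^ (κ' / 4 * L) := by
            apply Real.rpow_le_rpow_of_exponent_le hX1
            rw [div_le_iff₀ hκ'0] at hL1
            linarith
        _ = ((X : ℝ) ^ (κ' / 4)) ^ L := by rw [Real.rpow_mul hX0.le, Real.rpow_natCast]
        _ ≤ (R : ℝ) ^ L := pow_le_pow_left₀ (by positivity) hRlow L
        _ ≤ (z : ℝ) ^ L := pow_le_pow_left₀ (Nat.cast_nonneg _) (by exact_mod_cast hRz.le) L
    exact Nat.floor_le_of_le h5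
  calc (S.card : ℝ) ≤ _ := by exact_mod_cast card_le_card hsub
    _ ≤ 3 * (X * V) := hcount
    _ ≤ 3 * (X * (D * VV Z 0 z)) := by gcongr
    _ = 3 * D / c₁ * X * (c₁ * VV Z 0 z) := by field_simp
    _ ≤ _ := by gcongr

end Pool.Agent.X58.IV
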