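import Mathlib
import Pool.Agent.X58.IV.Up

set_option autoImplicit false
set_option maxHeartbeats 4000000

/-!
# Almost prime values of linear forms in windows, uniformly in the forms
-/

namespace Pool.Agent.X58.IV

open Finset Filter Topology
open Pool.Agent.Y843.HS (Pr VV Sv)

/-- `v > 1` is a product of at most `r` primes, all of them larger than `z` -/
def Almost (r : ℕ) (z : ℝ) (v : ℤ) : Prop :=
  1 < v ∧ v.toNat.primeFactorsList.length ≤ r ∧ ∀ p : ℕ, p.Prime → (p : ℤ) ∣ v → z < p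

open Classical in
/-- the `n` of `(A, A + X]` at which the values of all forms of `F` are products of at most `E t` primes, all of
them `> N ^ (1 / t)` -/
noncomputable def Win (F : Finset (ℤ × ℤ)) (E t N A X : ℕ) : Finset ℕ :=
  (Ioc A (A + X)).filter (fun n => ∀ L ∈ F, Almost (E * t) ((N : ℝ) ^ (1 / (t : ℝ))) (L.1 * (n : ℤ) + L.2))

/-- **Almost prime values in windows.** -/
theorem window (l E : ℕ) (θ : ℝ) (hθ : 0 < θ) : ∃ (t₀ : ℕ) (c : ℝ), 1 ≤ t₀ ∧ 0 < c ∧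
    (∀ F : Finset (ℤ × ℤ), F.card ≤ l → (∀ L ∈ F, IsCoprime L.1 L.2) → Locally F → ∀ Y : ℕ, 2 ≤ Y →
      c / Real.log Y ^ l ≤ Vol F Y) ∧
    ∀ t : ℕ, t₀ ≤ t → ∃ C : ℝ, 0 < C ∧ ∀ (m : ℕ) (ρ : ℝ), 0 < ρ → ∃ B N₀ : ℕ, ∀ N A X : ℕ, N₀ ≤ N →
      (N : ℝ) ^ θ ≤ X → X ≤ N → ∀ F : Finset (ℤ × ℤ), F.card ≤ l → (∀ L ∈ F, IsCoprime L.1 L.2) → Locally F →
      (∀ L ∈ F, ∀ n : ℕ, A < n → n ≤ A + X →
        1 < L.1 * (n : ℤ) + L.2 ∧ L.1 * (n : ℤ) + L.2 ≤ (N : ℤ) ^ E) →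
      c * X * Vol F N ≤ ((Win F E t N A X).card : ℝ) ∧
      ((Win F E t N A X).card : ℝ) ≤ C * X * Vol F N ∧
      ∀ U ⊆ Win F E t N A X, ρ * ((Win F E t N A X).card : ℝ) ≤ U.card → HasAP m (Real.log N ^ B) U := by
  classical
  obtain ⟨κ0, c1, hκ0, hκ01, hc1, X1, hlow⟩ := lowZ l
  obtain ⟨c2, hc2, hV⟩ := VV_ge l
  refine ⟨max 1 ⌈1 / (θ * κ0)⌉₊, min c1 c2, le_max_left _ _, by positivity, ?_, fun t ht => ?_⟩
  · intro F hl hF hloc Y hY
    rw [vol_eq]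
    refine le_trans ?_ (hV (ZF F) (adm_ZF F l hl hF hloc) Y hY)
    have hlog : 0 < Real.log Y := Real.log_pos (by exact_mod_cast (by omega : 1 < Y))
    gcongr
    exact min_le_right _ _
  have ht1 : 1 ≤ t := (le_max_left _ _).trans ht
  have ht0 : (0 : ℝ) < t := by exact_mod_cast ht1
  have htκ : 1 / (t : ℝ) ≤ θ * κ0 := by
    have h1 : 1 / (θ * κ0) ≤ t := by
      refine (Nat.le_ceil _).trans ?_
      exact_mod_cast (le_max_right _ _).trans ht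
    rw [div_le_iff₀ (by positivity)] at h1
    rw [div_le_iff₀ ht0]
    linarith
  obtain ⟨C2, hC2, X2, hup⟩ := upZ l (1 / (t : ℝ)) (by positivity)
  obtain ⟨c3, hc3, N3, hcomp⟩ := VV_comp_pow l (1 / (t : ℝ)) θ (by positivity) hθ
  refine ⟨C2 / c3, by positivity, fun m ρ hρ => ?_⟩
  obtain ⟨B, X4, hB⟩ := Pool.Agent.Y843.HS.fin m l (1 / (t : ℝ)) (ρ * min c1 c2 * c3) (by positivity) (by positivity)
  have tN : Tendsto (fun N : ℕ => (N : ℝ)) atTop atTop := tendsto_natCast_atTop_atTop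
  have t1 : Tendsto (fun N : ℕ => (N : ℝ) ^ θ) atTop atTop := (tendsto_rpow_atTop hθ).comp tN
  obtain ⟨N5, hN5⟩ := eventually_atTop.1 (t1.eventually_ge_atTop
    (max (max (X1 : ℝ) X2) (max (X4 : ℝ) 3)))
  refine ⟨B, max (max N3 N5) 3, fun N A X hN hXθ hXN F hl hF hloc hval => ?_⟩
  have hN3 : N3 ≤ N := ((le_max_left _ _).trans (le_max_left _ _)).trans hN
  have hN5' : N5 ≤ N := ((le_max_right _ _).trans (le_max_left _ _)).trans hN
  have hN3' : 3 ≤ N := (le_max_right _ _).trans hN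
  have hbig := (hN5 N hN5').trans hXθ
  have hX1 : X1 ≤ X := by
    exact_mod_cast ((le_max_left _ _).trans (le_max_left _ _)).trans hbig
  have hX2 : X2 ≤ X := by
    exact_mod_cast ((le_max_right _ _).trans (le_max_left _ _)).trans hbig
  have hX4 : X4 ≤ X := by
    exact_mod_cast ((le_max_left _ _).trans (le_max_right _ _)).trans hbig
  have hX3 : 3 ≤ X := by
    exact_mod_cast ((le_max_right _ _).trans (le_max_right _ _)).trans hbig
  have hN0 : (0 : ℝ) < N := by exact_mod_cast (by omega : 0 < N)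
  have hN1 : (1 : ℝ) ≤ N := by exact_mod_cast (by omega : 1 ≤ N)
  have hN1' : (1 : ℝ) < N := by exact_mod_cast (by omega : 1 < N)
  have hX0 : (0 : ℝ) < X := by exact_mod_cast (by omega : 0 < X)
  have hX1' : (1 : ℝ) ≤ X := by exact_mod_cast (by omega : 1 ≤ X)
  have hXN' : (X : ℝ) ≤ N := by exact_mod_cast hXN
  have hZ := adm_ZF F l hl hF hloc
  set z : ℝ := (N : ℝ) ^ (1 / (t : ℝ)) with hz
  have hz1 : 1 < z := Real.one_lt_rpow hN1' (by positivity)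
  have hzX : z ≤ (X : ℝ) ^ κ0 := by
    calc z ≤ (N : ℝ) ^ (θ * κ0) := Real.rpow_le_rpow_of_exponent_le hN1 htκ
      _ = ((N : ℝ) ^ θ) ^ κ0 := Real.rpow_mul hN0.le _ _
      _ ≤ (X : ℝ) ^ κ0 := Real.rpow_le_rpow (by positivity) hXθ hκ0.le
  have hXz : (X : ℝ) ^ (1 / (t : ℝ)) ≤ z := Real.rpow_le_rpow hX0.le hXN' (by positivity)
  have hzE : z ^ (E * t) = (N : ℝ) ^ E := by
    rw [hz, ← Real.rpow_natCast, ← Real.rpow_mul hN0.le]
    push_cast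
    rw [show 1 / (t : ℝ) * (E * t) = E by field_simp, Real.rpow_natCast]
  -- the sifted set is contained in the window set
  have hsub : Sift (ZF F) κ0 A X ⊆ Win F E t N A X := by
    rw [sift_eq]
    intro n hn
    rw [Free, mem_filter] at hn
    rw [Win, mem_filter]
    obtain ⟨hn1, hn2⟩ := hn
    refine ⟨hn1, fun L hL => ?_⟩
    obtain ⟨hv1, hv2⟩ := hval L hL n (mem_Ioc.1 hn1).1 (mem_Ioc.1 hn1).2
    have hfree : ∀ p : ℕ, p.Prime → (p : ℤ) ∣ L.1 * (n : ℤ) + L.2 → z < p :=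
      fun p hp hd => lt_of_le_of_lt hzX (hn2 L hL p hp hd)
    refine ⟨hv1, ?_, hfree⟩
    obtain ⟨v, hv⟩ : ∃ v : ℕ, (v : ℤ) = L.1 * (n : ℤ) + L.2 :=
      ⟨(L.1 * (n : ℤ) + L.2).toNat, Int.toNat_of_nonneg (by omega)⟩
    rw [← hv] at hv1 hv2 hfree ⊢
    rw [Int.toNat_natCast]
    apply few_factors v (E * t) z hz1 (by omega)
    · rw [hzE]
      exact_mod_cast hv2
    · intro p hp hd
      exact hfree p hp (by exact_mod_cast hd)
  have hWfree : ∀ n ∈ Win F E t N A X, ∀ p : ℕ, p.Prime → (p : ℝ) ≤ (X : ℝ) ^ (1 / (t : ℝ)) →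
      n % p ∉ ZF F p := by
    intro n hn p hp hpX hmem
    obtain ⟨L, hL, hd⟩ := (mem_ZF F hp.pos n).1 hmem
    have := ((mem_filter.1 hn).2 L hL).2.2 p hp hd
    linarith
  have hVN : Vol F N ≤ VV (ZF F) 0 ⌊(X : ℝ) ^ κ0⌋₊ := by
    rw [vol_eq]
    apply VV_anti hZ
    have h1 : (⌊(X : ℝ) ^ κ0⌋₊ : ℝ) ≤ N := by
      calc (⌊(X : ℝ) ^ κ0⌋₊ : ℝ) ≤ (X : ℝ) ^ κ0 := Nat.floor_le (by positivity)
        _ ≤ (X : ℝ) ^ (1 : ℝ) := Real.rpow_le_rpow_of_exponent_le hX1' hκ01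
        _ = X := Real.rpow_one _
        _ ≤ N := hXN'
    exact_mod_cast h1
  have hVN0 : 0 < Vol F N := by rw [vol_eq]; exact VV_pos hZ 0 N
  have hlowN : min c1 c2 * X * Vol F N ≤ ((Win F E t N A X).card : ℝ) := by
    calc min c1 c2 * X * Vol F N ≤ c1 * X * VV (ZF F) 0 ⌊(X : ℝ) ^ κ0⌋₊ := by
          gcongr
          exact min_le_left _ _
      _ ≤ ((Sift (ZF F) κ0 A X).card : ℝ) := hlow X A hX1 (ZF F) hZ
      _ ≤ _ := by exact_mod_cast card_le_card hsub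
  have hc := hcomp (ZF F) hZ N X hN3 hXθ
  rw [← vol_eq F N] at hc
  refine ⟨hlowN, ?_, fun U hU hUc => ?_⟩
  · have h1 := hup X A hX2 (ZF F) hZ (Win F E t N A X) (filter_subset _ _) hWfree
    calc ((Win F E t N A X).card : ℝ) ≤ C2 * X * VV (ZF F) 0 ⌊(X : ℝ) ^ (1 / (t : ℝ))⌋₊ := h1
      _ = C2 / c3 * X * (c3 * VV (ZF F) 0 ⌊(X : ℝ) ^ (1 / (t : ℝ))⌋₊) := by field_simp
      _ ≤ _ := by gcongr
  · have h1 := hB X A hX4 (ZF F) (fun p hp _ => hZ p hp) U (hU.trans (filter_subset _ _))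
      (fun n hn p hp hpX => hWfree n (hU hn) p hp hpX) (by
        calc ρ * min c1 c2 * c3 * X * VV (ZF F) 0 ⌊(X : ℝ) ^ (1 / (t : ℝ))⌋₊
            = ρ * min c1 c2 * X * (c3 * VV (ZF F) 0 ⌊(X : ℝ) ^ (1 / (t : ℝ))⌋₊) := by ring
          _ ≤ ρ * min c1 c2 * X * Vol F N := by gcongr
          _ = ρ * (min c1 c2 * X * Vol F N) := by ring
          _ ≤ ρ * ((Win F E t N A X).card : ℝ) := by gcongr
          _ ≤ _ := hUc)
    obtain ⟨a, d, h2, h3, h4⟩ := h1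
    refine ⟨a, d, h2, h3.trans ?_, h4⟩
    have hlX : 0 ≤ Real.log X := Real.log_nonneg hX1'
    exact pow_le_pow_left₀ hlX (Real.log_le_log hX0 hXN') B

end Pool.Agent.X58.IV
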