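import Mathlib
import Pool.Agent.X58.IV.Win

set_option autoImplicit false
set_option maxHeartbeats 4000000

/-!
# Translates of a pattern in windows, uniformly in the pattern
-/

namespace Pool.Agent.X58.IV

open Finset Filter Topology

/-- no prime divides `∏ (q + a)` for all `q` -/
def AdmS (S : Finset ℕ) : Prop := ∀ p : ℕ, p.Prime → ∃ q : ℕ, ¬ p ∣ ∏ a ∈ S, (q + a)

/-- the number of the classes `q` modulo `p` with `p ∣ ∏ (q + a)` -/
def omS (S : Finset ℕ) (p : ℕ) : ℕ := ((range p).filter (fun q => p ∣ ∏ a ∈ S, (q + a))).card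

/-- the product of the local densities `1 - omS S p / p` over the primes `p ≤ N` -/
noncomputable def volS (S : Finset ℕ) (N : ℕ) : ℝ :=
  ∏ p ∈ (Icc 1 N).filter Nat.Prime, (1 - (omS S p : ℝ) / p)

/-- `v > 1` is a product of at most `r` primes, all of them larger than `z` -/
def AlmostN (r : ℕ) (z : ℝ) (v : ℕ) : Prop :=
  1 < v ∧ v.primeFactorsList.length ≤ r ∧ ∀ p : ℕ, p.Prime → p ∣ v → z < p

open Classical in
/-- the `q` of `(A, A + X]` for which all `q + a`, `a ∈ S`, are products of at most `E t` primes, all of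
them `> N ^ (1 / t)` -/
noncomputable def WinS (S : Finset ℕ) (E t N A X : ℕ) : Finset ℕ :=
  (Ioc A (A + X)).filter (fun q => ∀ a ∈ S, AlmostN (E * t) ((N : ℝ) ^ (1 / (t : ℝ))) (q + a))

/-- the linear forms of a pattern -/
def FS (S : Finset ℕ) : Finset (ℤ × ℤ) := S.image (fun a : ℕ => ((1 : ℤ), (a : ℤ)))

lemma almost_cast (r : ℕ) (z : ℝ) (v : ℕ) : Almost r z (v : ℤ) ↔ AlmostN r z v := by
  unfold Almost AlmostN
  rw [Int.toNat_natCast]
  constructor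
  · rintro ⟨h1, h2, h3⟩
    exact ⟨by exact_mod_cast h1, h2, fun p hp hd => h3 p hp (by exact_mod_cast hd)⟩
  · rintro ⟨h1, h2, h3⟩
    exact ⟨by exact_mod_cast h1, h2, fun p hp hd => h3 p hp (by exact_mod_cast hd)⟩

lemma win_FS (S : Finset ℕ) (E t N A X : ℕ) : Win (FS S) E t N A X = WinS S E t N A X := by
  classical
  unfold Win WinS FS
  apply filter_congr
  intro q _
  constructor
  · intro h a ha
    have := h ((1 : ℤ), (a : ℤ)) (mem_image_of_mem _ ha)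
    rw [← almost_cast]
    simpa using this
  · intro h L hL
    obtain ⟨a, ha, rfl⟩ := mem_image.1 hL
    have := (almost_cast _ _ _).2 (h a ha)
    simpa using this

lemma dvd_iff_FS (S : Finset ℕ) {p : ℕ} (hp : p.Prime) (q : ℕ) :
    (∃ L ∈ FS S, (p : ℤ) ∣ L.1 * (q : ℤ) + L.2) ↔ p ∣ ∏ a ∈ S, (q + a) := by
  rw [Prime.dvd_finsetProd_iff hp.prime]
  constructor
  · rintro ⟨L, hL, hd⟩
    obtain ⟨a, ha, rfl⟩ := mem_image.1 hL
    refine ⟨a, ha, ?_⟩
    have : (p : ℤ) ∣ ((q + a : ℕ) : ℤ) := by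
      push_cast
      simpa using hd
    exact_mod_cast this
  · rintro ⟨a, ha, hd⟩
    refine ⟨((1 : ℤ), (a : ℤ)), mem_image_of_mem _ ha, ?_⟩
    have : (p : ℤ) ∣ ((q + a : ℕ) : ℤ) := by exact_mod_cast hd
    push_cast at this
    simpa using this

lemma om_FS (S : Finset ℕ) {p : ℕ} (hp : p.Prime) : om (FS S) p = omS S p := by
  classical
  unfold om omS ZF
  congr 1
  apply filter_congr
  intro q _
  exact dvd_iff_FS S hp q

lemma vol_FS (S : Finset ℕ) (N : ℕ) : Vol (FS S) N = volS S N := by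
  unfold Vol volS
  have : (Icc 1 N : Finset ℕ) = Ioc 0 N := by
    ext n; rw [mem_Icc, mem_Ioc]; omega
  rw [this]
  apply prod_congr rfl
  intro p hp
  rw [om_FS S (mem_filter.1 hp).2]

lemma locally_FS (S : Finset ℕ) (h : AdmS S) : Locally (FS S) := by
  intro p hp
  obtain ⟨q, hq⟩ := h p hp
  refine ⟨q, fun L hL hd => hq ((dvd_iff_FS S hp q).1 ⟨L, hL, hd⟩)⟩

lemma card_FS (S : Finset ℕ) : (FS S).card ≤ S.card := card_image_le

lemma coprime_FS (S : Finset ℕ) : ∀ L ∈ FS S, IsCoprime L.1 L.2 := by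
  intro L hL
  obtain ⟨a, _, rfl⟩ := mem_image.1 hL
  exact isCoprime_one_left

/-- **Patterns of almost primes in windows.** -/
theorem windowS (k E : ℕ) (θ : ℝ) (hθ : 0 < θ) : ∃ (t₀ : ℕ) (c : ℝ), 1 ≤ t₀ ∧ 0 < c ∧
    (∀ S : Finset ℕ, S.card ≤ k → AdmS S → ∀ Y : ℕ, 2 ≤ Y → c / Real.log Y ^ k ≤ volS S Y) ∧
    ∀ t : ℕ, t₀ ≤ t → ∃ C : ℝ, 0 < C ∧ ∀ (m : ℕ) (ρ : ℝ), 0 < ρ → ∃ B N₀ : ℕ, ∀ N A X : ℕ, N₀ ≤ N →
      (N : ℝ) ^ θ ≤ X → X ≤ N → ∀ S : Finset ℕ, S.card ≤ k → AdmS S →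
      (∀ a ∈ S, 1 ≤ A + a ∧ A + X + a ≤ N ^ E) →
      c * X * volS S N ≤ ((WinS S E t N A X).card : ℝ) ∧
      ((WinS S E t N A X).card : ℝ) ≤ C * X * volS S N ∧
      ∀ U ⊆ WinS S E t N A X, ρ * ((WinS S E t N A X).card : ℝ) ≤ U.card → HasAP m (Real.log N ^ B) U := by
  obtain ⟨t₀, c, ht₀, hc, hV, h⟩ := window k E θ hθ
  refine ⟨t₀, c, ht₀, hc, ?_, fun t ht => ?_⟩
  · intro S hS hadm Y hY
    rw [← vol_FS]
    exact hV (FS S) ((card_FS S).trans hS) (coprime_FS S) (locally_FS S hadm) Y hY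
  obtain ⟨C, hC, h2⟩ := h t ht
  refine ⟨C, hC, fun m ρ hρ => ?_⟩
  obtain ⟨B, N₀, h3⟩ := h2 m ρ hρ
  refine ⟨B, N₀, fun N A X hN hX hXN S hS hadm hval => ?_⟩
  have := h3 N A X hN hX hXN (FS S) ((card_FS S).trans hS) (coprime_FS S) (locally_FS S hadm) (by
    intro L hL n hn1 hn2
    obtain ⟨a, ha, rfl⟩ := mem_image.1 hL
    obtain ⟨h5, h6⟩ := hval a ha
    have h7 : ((n + a : ℕ) : ℤ) ≤ ((N ^ E : ℕ) : ℤ) := by exact_mod_cast (by omega : n + a ≤ N ^ E)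
    push_cast at h7
    refine ⟨?_, ?_⟩
    · simp only [one_mul]; omega
    · simpa using h7)
  rw [vol_FS, win_FS] at this
  exact this

end Pool.Agent.X58.IV
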