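import Mathlib
import Pool.Agent.X58.IV.Pat
import Pool.Agent.X32.Uni.Short3

set_option autoImplicit false
set_option maxHeartbeats 4000000

/-!
# Isolated patterns of almost primes in very short intervals
-/

namespace Pool.Agent.X58.IV

open Finset Filter Topology
open scoped Polynomial

open Classical in
/-- the `q` of `(A, B]` for which all `q + h`, `h ∈ H`, are products of at most `t` primes, all of them
`> X ^ (1 / t)`, and every other `q + j` with `|j| ≤ L` is divisible by a prime `≤ C` -/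
noncomputable def Isolated (H : Finset ℕ) (L C t X A B : ℕ) : Finset ℕ :=
  (Ioc A B).filter (fun q => (∀ h ∈ H, AlmostN t ((X : ℝ) ^ (1 / (t : ℝ))) (q + h)) ∧
    ∀ j : ℤ, -(L : ℤ) ≤ j → j ≤ L → (∀ h ∈ H, j ≠ (h : ℤ)) → ∃ p : ℕ, p.Prime ∧ p ≤ C ∧ (p : ℤ) ∣ (q : ℤ) + j)

/-- the terms `a, a + b, ..., a + (s - 1) b` of the progression `z = (a, b)` -/
def terms (s : ℕ) (z : ℕ × ℕ) : Finset ℕ := (range s).image (fun i => z.1 + i * z.2)

/-- the polynomials of a pattern -/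
noncomputable def pol (H : Finset ℕ) (l : Fin H.card) : ℤ[X] :=
  Polynomial.X + Polynomial.C (((H.equivFin.symm l : H) : ℕ) : ℤ)

lemma pol_deg (H : Finset ℕ) (l : Fin H.card) : (pol H l).natDegree = 1 := by
  unfold pol
  exact Polynomial.natDegree_X_add_C _

lemma pol_eval (H : Finset ℕ) (l : Fin H.card) (x : ℤ) :
    (pol H l).eval x = x + (((H.equivFin.symm l : H) : ℕ) : ℤ) := by
  unfold pol
  simp

lemma prod_eval (H : Finset ℕ) (x : ℤ) : ∏ l, (pol H l).eval x = ∏ h ∈ H, (x + (h : ℤ)) := by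
  rw [← Finset.prod_coe_sort H (fun h => x + (h : ℤ))]
  rw [← Equiv.prod_comp H.equivFin.symm]
  apply prod_congr rfl
  intro l _
  rw [pol_eval]

/-- the polynomials which have to be divisible by a small prime -/
noncomputable def oth (H : Finset ℕ) (L : ℕ) : Finset ℤ[X] :=
  (((Icc (-(L : ℤ)) L).filter (fun j => ∀ h ∈ H, j ≠ (h : ℤ))).image
    (fun j => (Polynomial.X + Polynomial.C j : ℤ[X])))

lemma vol_pol (H : Finset ℕ) (N : ℕ) : Pool.Agent.X32.Uni.V (pol H) N = volS H N := by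
  unfold Pool.Agent.X32.Uni.V volS
  apply prod_congr rfl
  intro p _
  have : Pool.Agent.X32.Uni.om (pol H) p = omS H p := by
    unfold Pool.Agent.X32.Uni.om omS
    congr 1
    apply filter_congr
    intro q _
    rw [prod_eval]
    have e : ∏ h ∈ H, ((q : ℤ) + (h : ℤ)) = ((∏ h ∈ H, (q + h) : ℕ) : ℤ) := by push_cast; rfl
    rw [e]
    exact Int.natCast_dvd_natCast
  rw [this]

/-- **Isolated patterns.** -/
theorem isolated (H : Finset ℕ) (hH : H.Nonempty) (hadm : AdmS H) (L : ℕ) (ε : ℝ) (hε : 0 < ε) :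
    ∃ C t : ℕ, 1 ≤ t ∧ ∃ κ K : ℝ, 0 < κ ∧ 0 < K ∧ ∀ (s r : ℕ) (δ : ℝ), 1 ≤ s → 0 < δ → ∃ c X₀ : ℕ,
      ∀ X : ℕ, X₀ ≤ X → κ / Real.log X ^ H.card ≤ volS H X ∧ ∀ A B : ℕ, B ≤ X → (X : ℝ) ^ ε ≤ (B : ℝ) - A →
        κ * ((B : ℝ) - A) * volS H X ≤ ((Isolated H L C t X A B).card : ℝ) ∧
        ((Isolated H L C t X A B).card : ℝ) ≤ K * ((B : ℝ) - A) * volS H X ∧
        ∀ χ : ℕ → Fin r, ∃ P : Finset (ℕ × ℕ),
          (∀ z ∈ P, 1 ≤ z.2 ∧ (z.2 : ℝ) ≤ Real.log X ^ c ∧
            ∀ l < s, z.1 + l * z.2 ∈ Isolated H L C t X A B ∧ χ (z.1 + l * z.2) = χ z.1) ∧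
          (P : Set (ℕ × ℕ)).PairwiseDisjoint (terms s) ∧
          (((Isolated H L C t X A B \ P.biUnion (terms s)).card : ℕ) : ℝ) ≤
            δ * ((B : ℝ) - A) * volS H X := by
  classical
  obtain ⟨C, t, ht, κ, K, hκ, hK, h⟩ := Pool.Agent.X32.Uni.killS (pol H) hH.card_pos
    (fun l => by rw [pol_deg]) (by
      intro p hp
      obtain ⟨q, hq⟩ := hadm p hp
      refine ⟨(q : ℤ), fun hd => hq ?_⟩
      rw [prod_eval] at hd
      have e : ∏ h ∈ H, ((q : ℤ) + (h : ℤ)) = ((∏ h ∈ H, (q + h) : ℕ) : ℤ) := by push_cast; rfl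
      rw [e] at hd
      exact Int.natCast_dvd_natCast.1 hd) (oth H L) (by
      intro g hg
      obtain ⟨j, hj, rfl⟩ := mem_image.1 hg
      refine ⟨Polynomial.X_add_C_ne_zero j, -(j : ℂ), ?_, fun l => ?_⟩
      · simp
      · unfold pol
        have hj' := (mem_filter.1 hj).2 _ (H.equivFin.symm l).2
        simp only [map_add, Polynomial.aeval_X, Polynomial.aeval_C]
        intro h0
        apply hj'
        have h1 : (((H.equivFin.symm l : H) : ℕ) : ℂ) = (j : ℂ) := by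
          have : (algebraMap ℤ ℂ) (((H.equivFin.symm l : H) : ℕ) : ℤ) = (((H.equivFin.symm l : H) : ℕ) : ℂ) := by
            simp
          rw [this] at h0
          linear_combination h0
        exact_mod_cast h1.symm) ε hε
  have hGS : ∀ X A B : ℕ, Pool.Agent.X32.Uni.GS (pol H) (oth H L) C t X A B = Isolated H L C t X A B := by
    intro X A B
    unfold Pool.Agent.X32.Uni.GS Isolated
    apply filter_congr
    intro q _
    apply and_congr
    · constructor
      · intro h1 h hh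
        have := h1 (H.equivFin ⟨h, hh⟩)
        rw [pol_deg, mul_one, pol_eval, Equiv.symm_apply_apply] at this
        obtain ⟨a1, a2, a3⟩ := this
        have e : (q : ℤ) + (((⟨h, hh⟩ : H) : ℕ) : ℤ) = ((q + h : ℕ) : ℤ) := by push_cast; rfl
        rw [e] at a1 a2 a3
        rw [Nat.abs_cast] at a1
        rw [Int.natAbs_natCast] at a2
        exact ⟨by exact_mod_cast a1, a2, fun p hp hd => a3 p hp (Int.natCast_dvd_natCast.2 hd)⟩
      · intro h1 l
        rw [pol_deg, mul_one, pol_eval]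
        obtain ⟨a1, a2, a3⟩ := h1 _ (H.equivFin.symm l).2
        have e : (q : ℤ) + (((H.equivFin.symm l : H) : ℕ) : ℤ) = ((q + ((H.equivFin.symm l : H) : ℕ) : ℕ) : ℤ) := by
          push_cast; rfl
        rw [e]
        refine ⟨?_, ?_, fun p hp hd => a3 p hp (Int.natCast_dvd_natCast.1 hd)⟩
        · rw [Nat.abs_cast]
          exact_mod_cast a1
        · rw [Int.natAbs_natCast]
          exact a2
    · constructor
      · intro h1 j hj1 hj2 hj3
        obtain ⟨p, hp, hpC, hd⟩ := h1 _ (mem_image_of_mem _ (mem_filter.2 ⟨mem_Icc.2 ⟨hj1, hj2⟩, hj3⟩))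
        refine ⟨p, hp, hpC, ?_⟩
        simpa using hd
      · intro h1 g hg
        obtain ⟨j, hj, rfl⟩ := mem_image.1 hg
        obtain ⟨hj1, hj2⟩ := mem_filter.1 hj
        obtain ⟨p, hp, hpC, hd⟩ := h1 j (mem_Icc.1 hj1).1 (mem_Icc.1 hj1).2 hj2
        refine ⟨p, hp, hpC, ?_⟩
        simpa using hd
  have hdeg : ∑ l, (pol H l).natDegree = H.card := by
    simp only [pol_deg, sum_const, card_univ, Fintype.card_fin, smul_eq_mul, mul_one]
  refine ⟨C, t, ht, κ, K, hκ, hK, fun s r δ hs hδ => ?_⟩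
  obtain ⟨c, X₀, h2⟩ := h s r δ hs hδ
  refine ⟨c, X₀, fun X hX => ?_⟩
  have h3 := h2 X hX
  rw [hdeg, vol_pol] at h3
  refine ⟨h3.1, fun A B hB hAB => ?_⟩
  have h4 := h3.2 A B hB hAB
  rw [hGS] at h4
  exact h4

end Pool.Agent.X58.IV
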