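import Mathlib
import Pool.Agent.X58.IV.Exact

set_option autoImplicit false
set_option maxHeartbeats 4000000

/-!
# Isolated patterns, with logarithms instead of the product of local densities
-/

namespace Pool.Agent.X58.IV

open Finset Filter Topology

lemma omS_eq (H : Finset ℕ) (M : ℕ) (hM : ∀ h ∈ H, h < M) {p : ℕ} (hp : p.Prime) (hMp : M ≤ p) :
    omS H p = H.card := by
  classical
  unfold omS
  have hp0 : 0 < p := hp.pos
  symm
  apply card_bij (fun h _ => (p - h) % p)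
  · intro h hh
    rw [mem_filter, mem_range]
    refine ⟨Nat.mod_lt _ hp0, ?_⟩
    rw [Prime.dvd_finsetProd_iff hp.prime]
    refine ⟨h, hh, ?_⟩
    have h1 : h < p := (hM h hh).trans_le hMp
    by_cases h0 : h = 0
    · subst h0; simp
    · rw [Nat.mod_eq_of_lt (by omega), Nat.sub_add_cancel h1.le]
  · intro h hh h' hh' he
    have h1 : h < p := (hM h hh).trans_le hMp
    have h1' : h' < p := (hM h' hh').trans_le hMp
    by_cases h0 : h = 0 <;> by_cases h0' : h' = 0
    · omega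
    · subst h0
      rw [Nat.sub_zero, Nat.mod_self, Nat.mod_eq_of_lt (by omega)] at he
      omega
    · subst h0'
      rw [Nat.sub_zero, Nat.mod_self, Nat.mod_eq_of_lt (by omega)] at he
      omega
    · rw [Nat.mod_eq_of_lt (by omega), Nat.mod_eq_of_lt (by omega)] at he
      omega
  · intro q hq
    rw [mem_filter, mem_range, Prime.dvd_finsetProd_iff hp.prime] at hq
    obtain ⟨hq1, h, hh, hd⟩ := hq
    refine ⟨h, hh, ?_⟩
    have h1 : h < p := (hM h hh).trans_le hMp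
    by_cases h0 : h = 0
    · subst h0
      rw [Nat.sub_zero, Nat.mod_self]
      rw [Nat.add_zero] at hd
      exact (Nat.eq_zero_of_dvd_of_lt hd hq1).symm
    · rw [Nat.mod_eq_of_lt (by omega)]
      obtain ⟨e, he⟩ := hd
      have : e = 1 := by
        have h2 : p * e < p * 2 := by omega
        have h3 : e < 2 := Nat.lt_of_mul_lt_mul_left h2
        have h4 : 0 < e := by
          rcases Nat.eq_zero_or_pos e with h5 | h5
          · subst h5; omega
          · exact h5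
        omega
      subst this
      omega

/-- the product of the local densities is at most `C / (log X) ^ k` -/
lemma volS_le (H : Finset ℕ) : ∃ C : ℝ, 0 < C ∧ ∀ X : ℕ, 2 ≤ X → volS H X ≤ C / Real.log X ^ H.card := by
  classical
  obtain ⟨M, hM⟩ : ∃ M : ℕ, ∀ h ∈ H, h < M := ⟨H.sup id + 1, fun h hh => by
    have := le_sup (f := id) hh
    simp only [id] at this
    omega⟩
  obtain ⟨C0, hC0, hm⟩ := Pool.Agent.Y840.PT.mert
  set k := H.card with hk
  -- the constant: product over small primes of (1 - 1/p)^(-k)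
  set c1 : ℝ := ∏ p ∈ Pool.Agent.Y840.PT.P0 M, (1 - 1 / (p : ℝ)) ^ k with hc1
  have hpos : ∀ p : ℕ, p.Prime → 0 < 1 - 1 / (p : ℝ) := by
    intro p hp
    have hp2 : (2 : ℝ) ≤ p := by exact_mod_cast hp.two_le
    rw [sub_pos, div_lt_one (by linarith)]
    linarith
  have hle1 : ∀ p : ℕ, (1 - 1 / (p : ℝ)) ≤ 1 := by
    intro p
    have : (0 : ℝ) ≤ 1 / p := by positivity
    linarith
  have hc10 : 0 < c1 := prod_pos fun p hp => pow_pos (hpos p (mem_filter.1 hp).2) k
  refine ⟨C0 ^ k / c1, by positivity, fun X hX => ?_⟩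
  have hlog : 0 < Real.log X := Real.log_pos (by exact_mod_cast (by omega : 1 < X))
  have hfac0 : ∀ p : ℕ, p.Prime → 0 ≤ 1 - (omS H p : ℝ) / p ∧ 1 - (omS H p : ℝ) / p ≤ 1 := by
    intro p hp
    have hp0 : (0 : ℝ) < p := by exact_mod_cast hp.pos
    have h6 : (omS H p : ℝ) ≤ p := by
      have : omS H p ≤ p := by
        unfold omS
        exact (card_filter_le _ _).trans (by simp)
      exact_mod_cast this
    have h7 : 0 ≤ (omS H p : ℝ) / p := div_nonneg (Nat.cast_nonneg _) hp0.le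
    have h8 : (omS H p : ℝ) / p ≤ 1 := by rwa [div_le_one hp0]
    exact ⟨by linarith, by linarith⟩
  have hbig : ∀ p : ℕ, p.Prime → M ≤ p → 1 - (omS H p : ℝ) / p ≤ (1 - 1 / (p : ℝ)) ^ k := by
    intro p hp hMp
    rw [omS_eq H M hM hp hMp]
    have hp0 : (0 : ℝ) < p := by exact_mod_cast hp.pos
    have := one_add_mul_le_pow (a := -(1 / (p : ℝ))) (by
      have : 1 / (p : ℝ) ≤ 1 := by
        rw [div_le_one hp0]
        exact_mod_cast hp.one_lt.le
      linarith) k
    have e : 1 + -(1 / (p : ℝ)) = 1 - 1 / (p : ℝ) := by ring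
    rw [e] at this
    have e2 : (k : ℝ) / p = k * (1 / p) := by ring
    rw [e2]
    linarith
  have hI : (Icc 1 X).filter Nat.Prime = Pool.Agent.Y840.PT.P0 X := by
    unfold Pool.Agent.Y840.PT.P0
    have : (Icc 1 X : Finset ℕ) = Ioc 0 X := by
      ext n; rw [mem_Icc, mem_Ioc]; omega
    rw [this]
  have key : c1 * volS H X ≤ ∏ p ∈ Pool.Agent.Y840.PT.P0 X, (1 - 1 / (p : ℝ)) ^ k := by
    unfold volS
    rw [hI, ← prod_filter_mul_prod_filter_not (Pool.Agent.Y840.PT.P0 X) (fun p => p < M) (fun p => 1 - (omS H p : ℝ) / p),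
      ← prod_filter_mul_prod_filter_not (Pool.Agent.Y840.PT.P0 X) (fun p => p < M) (fun p => (1 - 1 / (p : ℝ)) ^ k)]
    have h1 : c1 ≤ ∏ p ∈ (Pool.Agent.Y840.PT.P0 X).filter (fun p => p < M), (1 - 1 / (p : ℝ)) ^ k := by
      have hsub : (Pool.Agent.Y840.PT.P0 X).filter (fun p => p < M) ⊆ Pool.Agent.Y840.PT.P0 M := by
        intro p hp
        rw [mem_filter, Pool.Agent.Y840.PT.P0, mem_filter, mem_Ioc] at hp
        rw [Pool.Agent.Y840.PT.P0, mem_filter, mem_Ioc]
        exact ⟨⟨hp.1.1.1, by omega⟩, hp.1.2⟩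
      rw [hc1, ← prod_sdiff hsub]
      have h8 : ∏ p ∈ Pool.Agent.Y840.PT.P0 M \ (Pool.Agent.Y840.PT.P0 X).filter (fun p => p < M),
          (1 - 1 / (p : ℝ)) ^ k ≤ 1 := by
        apply prod_le_one
        · intro p hp
          exact pow_nonneg (hpos p (mem_filter.1 (Finset.mem_sdiff.1 hp).1).2).le k
        · intro p hp
          exact pow_le_one₀ (hpos p (mem_filter.1 (Finset.mem_sdiff.1 hp).1).2).le (hle1 p)
      have h9 : 0 ≤ ∏ p ∈ (Pool.Agent.Y840.PT.P0 X).filter (fun p => p < M), (1 - 1 / (p : ℝ)) ^ k := by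
        apply prod_nonneg
        intro p hp
        exact pow_nonneg (hpos p (mem_filter.1 (mem_filter.1 hp).1).2).le k
      nlinarith
    have h2 : ∏ p ∈ (Pool.Agent.Y840.PT.P0 X).filter (fun p => p < M), (1 - (omS H p : ℝ) / p) ≤ 1 := by
      apply prod_le_one
      · intro p hp
        exact (hfac0 p (mem_filter.1 (mem_filter.1 hp).1).2).1
      · intro p hp
        exact (hfac0 p (mem_filter.1 (mem_filter.1 hp).1).2).2
    have h3 : ∏ p ∈ (Pool.Agent.Y840.PT.P0 X).filter (fun p => ¬ p < M), (1 - (omS H p : ℝ) / p) ≤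
        ∏ p ∈ (Pool.Agent.Y840.PT.P0 X).filter (fun p => ¬ p < M), (1 - 1 / (p : ℝ)) ^ k := by
      apply Finset.prod_le_prod
      · intro p hp
        exact (hfac0 p (mem_filter.1 (mem_filter.1 hp).1).2).1
      · intro p hp
        exact hbig p (mem_filter.1 (mem_filter.1 hp).1).2 (not_lt.1 (mem_filter.1 hp).2)
    have h4 : 0 ≤ ∏ p ∈ (Pool.Agent.Y840.PT.P0 X).filter (fun p => ¬ p < M), (1 - (omS H p : ℝ) / p) := by
      apply prod_nonneg
      intro p hp
      exact (hfac0 p (mem_filter.1 (mem_filter.1 hp).1).2).1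
    have h5 : 0 ≤ ∏ p ∈ (Pool.Agent.Y840.PT.P0 X).filter (fun p => p < M), (1 - (omS H p : ℝ) / p) := by
      apply prod_nonneg
      intro p hp
      exact (hfac0 p (mem_filter.1 (mem_filter.1 hp).1).2).1
    calc c1 * ((∏ p ∈ (Pool.Agent.Y840.PT.P0 X).filter (fun p => p < M), (1 - (omS H p : ℝ) / p)) *
          ∏ p ∈ (Pool.Agent.Y840.PT.P0 X).filter (fun p => ¬ p < M), (1 - (omS H p : ℝ) / p))
        ≤ c1 * (1 * ∏ p ∈ (Pool.Agent.Y840.PT.P0 X).filter (fun p => ¬ p < M), (1 - (omS H p : ℝ) / p)) := by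
          gcongr
      _ = c1 * ∏ p ∈ (Pool.Agent.Y840.PT.P0 X).filter (fun p => ¬ p < M), (1 - (omS H p : ℝ) / p) := by ring
      _ ≤ _ := mul_le_mul h1 h3 h4 (hc10.le.trans h1)
  rw [prod_pow] at key
  have h6 := hm X hX
  have hP0 : 0 ≤ ∏ p ∈ Pool.Agent.Y840.PT.P0 X, (1 - 1 / (p : ℝ)) :=
    prod_nonneg fun p hp => (hpos p (mem_filter.1 hp).2).le
  have h7 := pow_le_pow_left₀ hP0 h6 k
  rw [div_pow] at h7
  have h8 := key.trans h7
  rw [div_div, le_div_iff₀ (by positivity)]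
  rw [le_div_iff₀ (by positivity)] at h8
  linarith

/-- **Isolated patterns in short intervals, order of magnitude with logarithms.** -/
theorem isolatedE (H : Finset ℕ) (hH : H.Nonempty) (hadm : AdmS H) (L E : ℕ) (hE : 1 ≤ E) (ε : ℝ) (hε : 0 < ε) :
    ∃ C t : ℕ, 1 ≤ t ∧ ∃ κ K : ℝ, 0 < κ ∧ 0 < K ∧ ∀ (s r : ℕ) (δ : ℝ), 1 ≤ s → 0 < δ → ∃ c N₀ : ℕ,
      ∀ N : ℕ, N₀ ≤ N → ∀ A B : ℕ, B ≤ N ^ E → (N : ℝ) ^ ε ≤ (B : ℝ) - A →
        κ * ((B : ℝ) - A) / Real.log N ^ H.card ≤ ((Isolated H L C t (N ^ E) A B).card : ℝ) ∧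
        ((Isolated H L C t (N ^ E) A B).card : ℝ) ≤ K * ((B : ℝ) - A) / Real.log N ^ H.card ∧
        ∀ χ : ℕ → Fin r, ∃ P : Finset (ℕ × ℕ),
          (∀ z ∈ P, 1 ≤ z.2 ∧ (z.2 : ℝ) ≤ Real.log N ^ c ∧
            ∀ l < s, z.1 + l * z.2 ∈ Isolated H L C t (N ^ E) A B ∧ χ (z.1 + l * z.2) = χ z.1) ∧
          (P : Set (ℕ × ℕ)).PairwiseDisjoint (terms s) ∧
          (((Isolated H L C t (N ^ E) A B \ P.biUnion (terms s)).card : ℕ) : ℝ) ≤
            δ * ((B : ℝ) - A) / Real.log N ^ H.card := by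
  classical
  have hE0 : (0 : ℝ) < E := by exact_mod_cast hE
  obtain ⟨C, t, ht, κ, K, hκ, hK, h⟩ := isolated H hH hadm L (ε / E) (by positivity)
  obtain ⟨C1, hC1, hvol⟩ := volS_le H
  refine ⟨C, t, ht, κ * κ / E ^ H.card, K * C1, by positivity, by positivity, fun s r δ hs hδ => ?_⟩
  obtain ⟨c, X₀, h2⟩ := h s r (δ / C1) hs (by positivity)
  refine ⟨2 * c, max X₀ (max 3 ⌈Real.exp E⌉₊), fun N hN A B hB hAB => ?_⟩
  have hN3 : 3 ≤ N := ((le_max_left _ _).trans (le_max_right _ _)).trans hN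
  have hNe : Real.exp E ≤ N := by
    refine (Nat.le_ceil _).trans ?_
    exact_mod_cast ((le_max_right _ _).trans (le_max_right _ _)).trans hN
  have hN0 : (0 : ℝ) < N := by exact_mod_cast (by omega : 0 < N)
  have hN1 : (1 : ℝ) ≤ N := by exact_mod_cast (by omega : 1 ≤ N)
  have hX : X₀ ≤ N ^ E := ((le_max_left _ _).trans hN).trans (Nat.le_self_pow (by omega) N)
  have hlN : 0 < Real.log N := Real.log_pos (by exact_mod_cast (by omega : 1 < N))
  have hlE : (E : ℝ) ≤ Real.log N := by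
    rw [← Real.log_exp E]
    exact Real.log_le_log (Real.exp_pos _) hNe
  have hlogX : Real.log ((N ^ E : ℕ) : ℝ) = E * Real.log N := by
    push_cast
    rw [Real.log_pow]
  have hlogX1 : Real.log N ≤ Real.log ((N ^ E : ℕ) : ℝ) := by
    rw [hlogX]
    have : (1 : ℝ) ≤ E := by exact_mod_cast hE
    nlinarith
  obtain ⟨h3, h4⟩ := h2 (N ^ E) hX
  have h5 := h4 A B hB (by
    refine le_trans (le_of_eq ?_) hAB
    push_cast
    rw [← Real.rpow_natCast, ← Real.rpow_mul hN0.le]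
    congr 1
    field_simp)
  have hBA : 0 ≤ (B : ℝ) - A := le_trans (by positivity) hAB
  have hv := hvol (N ^ E) (by
    have : N ≤ N ^ E := Nat.le_self_pow (by omega) N
    omega)
  have hv2 : volS H (N ^ E) ≤ C1 / Real.log N ^ H.card := by
    refine hv.trans ?_
    apply div_le_div_of_nonneg_left hC1.le (by positivity)
    exact pow_le_pow_left₀ hlN.le hlogX1 _
  have hv1 : κ / E ^ H.card / Real.log N ^ H.card ≤ volS H (N ^ E) := by
    refine le_trans (le_of_eq ?_) h3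
    rw [hlogX, mul_pow, div_div]
  refine ⟨?_, ?_, fun χ => ?_⟩
  · refine le_trans ?_ h5.1
    calc κ * κ / E ^ H.card * ((B : ℝ) - A) / Real.log N ^ H.card =
          κ * ((B : ℝ) - A) * (κ / E ^ H.card / Real.log N ^ H.card) := by ring
      _ ≤ _ := by gcongr
  · refine h5.2.1.trans ?_
    calc K * ((B : ℝ) - A) * volS H (N ^ E) ≤ K * ((B : ℝ) - A) * (C1 / Real.log N ^ H.card) := by gcongr
      _ = _ := by ring
  · obtain ⟨P, h6, h7, h8⟩ := h5.2.2 χ
    refine ⟨P, fun z hz => ?_, h7, h8.trans ?_⟩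
    · obtain ⟨h9, h10, h11⟩ := h6 z hz
      refine ⟨h9, h10.trans ?_, h11⟩
      rw [pow_mul, hlogX]
      apply pow_le_pow_left₀ (by positivity)
      nlinarith
    · calc δ / C1 * ((B : ℝ) - A) * volS H (N ^ E) ≤ δ / C1 * ((B : ℝ) - A) * (C1 / Real.log N ^ H.card) := by
            gcongr
        _ = _ := by field_simp

end Pool.Agent.X58.IV
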