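import Mathlib
import Pool.Agent.X58.IV.Up
import Pool.Agent.H386R2.HL.E

set_option autoImplicit false
set_option maxHeartbeats 4000000

/-!
# Primes in short intervals: upper bound and narrow progressions in dense sets of primes
-/

namespace Pool.Agent.X58.IV

open Finset Filter Topology
open Pool.Agent.Y843.HS (Pr VV Sv)

lemma adm_zero : Adm 1 (fun _ => ({0} : Finset ℕ)) := by
  intro p hp
  refine ⟨by simp, by simpa using hp.one_lt, fun c hc => ?_⟩
  rw [mem_singleton] at hc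
  rw [hc]
  exact hp.pos

lemma VV_zero : ∃ C : ℝ, 0 < C ∧ ∀ y : ℕ, 2 ≤ y → VV (fun _ => ({0} : Finset ℕ)) 0 y ≤ C / Real.log y := by
  obtain ⟨C, hC, h⟩ := Pool.Agent.Y840.PT.mert
  refine ⟨C, hC, fun y hy => ?_⟩
  have e : VV (fun _ => ({0} : Finset ℕ)) 0 y = ∏ p ∈ Pool.Agent.Y840.PT.P0 y, (1 - 1 / (p : ℝ)) := by
    unfold VV Pool.Agent.Y840.PT.P0 Pr
    apply prod_congr rfl
    intro p _
    simp
  rw [e]
  exact h y hy

/-- upper bound for the number of primes in short intervals -/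
theorem primes_up : ∃ C : ℝ, 0 < C ∧ ∃ X₀ : ℕ, ∀ X A : ℕ, X₀ ≤ X → X ≤ A →
    (((Ioc A (A + X)).filter Nat.Prime).card : ℝ) ≤ C * X / Real.log X := by
  obtain ⟨C, hC, X₀, h⟩ := upZ 1 1 one_pos
  obtain ⟨C', hC', h'⟩ := VV_zero
  refine ⟨C * C', by positivity, max X₀ 2, fun X A hX hXA => ?_⟩
  have hX2 : 2 ≤ X := (le_max_right _ _).trans hX
  have h1 := h X A ((le_max_left _ _).trans hX) _ adm_zero ((Ioc A (A + X)).filter Nat.Prime)
    (filter_subset _ _) (by
      intro n hn p hp hpX hmem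
      rw [mem_filter, mem_Ioc] at hn
      rw [mem_singleton] at hmem
      rw [Real.rpow_one] at hpX
      have hpX' : p ≤ X := by exact_mod_cast hpX
      have h2 := (Nat.prime_dvd_prime_iff_eq hp hn.2).1 (Nat.dvd_of_mod_eq_zero hmem)
      omega)
  have e : ⌊(X : ℝ) ^ (1 : ℝ)⌋₊ = X := by rw [Real.rpow_one, Nat.floor_natCast]
  rw [e] at h1
  have h2 := h' X hX2
  calc _ ≤ C * X * VV (fun _ => ({0} : Finset ℕ)) 0 X := h1
    _ ≤ C * X * (C' / Real.log X) := by gcongr
    _ = _ := by ring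

/-- dense sets of primes of short intervals contain narrow progressions -/
theorem primes_ap (m : ℕ) (ρ : ℝ) (hρ : 0 < ρ) : ∃ B X₀ : ℕ, ∀ X A : ℕ, X₀ ≤ X → X ≤ A →
    ∀ U : Finset ℕ, U ⊆ (Ioc A (A + X)).filter Nat.Prime → ρ * X / Real.log X ≤ U.card →
    HasAP m (Real.log X ^ B) U := by
  obtain ⟨C', hC', h'⟩ := VV_zero
  obtain ⟨B, X₀, hB⟩ := Pool.Agent.Y843.HS.fin m 1 1 (ρ / C') one_pos (by positivity)
  refine ⟨B, max X₀ 2, fun X A hX hXA U hU hc => ?_⟩
  have hX2 : 2 ≤ X := (le_max_right _ _).trans hX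
  have e : ⌊(X : ℝ) ^ (1 : ℝ)⌋₊ = X := by rw [Real.rpow_one, Nat.floor_natCast]
  apply hB X A ((le_max_left _ _).trans hX) (fun _ => ({0} : Finset ℕ)) (fun p hp _ => adm_zero p hp) U
    (hU.trans (filter_subset _ _))
  · intro n hn p hp hpX hmem
    have hn' := mem_filter.1 (hU hn)
    rw [mem_Ioc] at hn'
    rw [mem_singleton] at hmem
    rw [Real.rpow_one] at hpX
    have hpX' : p ≤ X := by exact_mod_cast hpX
    have h2 := (Nat.prime_dvd_prime_iff_eq hp hn'.2).1 (Nat.dvd_of_mod_eq_zero hmem)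
    omega
  · rw [e]
    refine le_trans ?_ hc
    have h2 := h' X hX2
    calc ρ / C' * X * VV (fun _ => ({0} : Finset ℕ)) 0 X ≤ ρ / C' * X * (C' / Real.log X) := by gcongr
      _ = ρ * X / Real.log X := by field_simp

/-- lower bound for the number of primes in `(x, 2x]` -/
theorem primes_low : ∃ x₀ : ℕ, ∀ x : ℕ, x₀ ≤ x →
    x / (2 * Real.log x) ≤ (((Ioc x (2 * x)).filter Nat.Prime).card : ℝ) := by
  obtain ⟨x₀, h⟩ := Pool.Agent.H386R2.HL.pnt_window (1 / 2) (by norm_num)
  refine ⟨x₀, fun x hx => ?_⟩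
  have h1 := h x hx x le_rfl
  have e : (Nat.primeCounting (x + x) : ℝ) - Nat.primeCounting x =
      (((Ioc x (2 * x)).filter Nat.Prime).card : ℝ) := by
    have h2 : Nat.primeCounting (x + x) = Nat.primeCounting x + ((Ioc x (2 * x)).filter Nat.Prime).card := by
      rw [Nat.primeCounting, Nat.primeCounting, Nat.primeCounting', Nat.count_eq_card_filter_range,
        Nat.count_eq_card_filter_range, ← card_union_of_disjoint]
      · congr 1
        ext p
        simp only [mem_filter, mem_range, mem_union, mem_Ioc]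
        constructor
        · rintro ⟨h3, h4⟩
          by_cases h5 : p < x + 1
          · exact Or.inl ⟨h5, h4⟩
          · exact Or.inr ⟨⟨by omega, by omega⟩, h4⟩
        · rintro (⟨h3, h4⟩ | ⟨h3, h4⟩)
          · exact ⟨by omega, h4⟩
          · exact ⟨by omega, h4⟩
      · rw [disjoint_left]
        intro p hp hp'
        rw [mem_filter, mem_range] at hp
        rw [mem_filter, mem_Ioc] at hp'
        omega
    rw [h2]
    push_cast
    ring
  rw [e] at h1
  refine le_trans (le_of_eq ?_) h1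
  rw [mul_comm (2 : ℝ), ← div_div]
  ring

end Pool.Agent.X58.IV
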